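import Pool.Agent.H72.TG.Defs

/-!
# TG-11: Bessel inequality for events (job)

`G b` are pairwise independent events of the same probability `q`. For every event `E` and `δ > 0`
only finitely many `b` satisfy `μ(E ∩ G b) ≥ μ(E) q + δ`.

PROOF. Let `F` be a finite set of such `b` with `n` elements and `lam = n δ`. The function
`(∑_{b ∈ F} (1_{G b} - q) - lam 1_E)^2` is `≥ 0`; its integral is
`∑_{b,b' ∈ F} (μ(G b ∩ G b') - q^2) - 2 lam ∑_{b ∈ F} (μ(E ∩ G b) - q μ(E)) + lam^2 μ(E)`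
`≤ n (q - q^2) - 2 lam n δ + lam^2 ≤ n/4 - n^2 δ^2`, so `n ≤ 1/(4 δ^2)`. So the set cannot contain
finite subsets of arbitrary size, hence is finite (`Set.Infinite.exists_subset_card_eq`).
(All functions are measurable and bounded: `MeasurableSet.of_discrete`, `integral_indicator_one`,
`integral_finset_sum`.)
-/

set_option autoImplicit false

open MeasureTheory

namespace Pool.Agent.H72.TG

/-- the second moment -/
theorem bessel_aux {Ω β : Type} [MeasurableSpace Ω] [DiscreteMeasurableSpace Ω] (μ : Measure Ω)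
    [IsProbabilityMeasure μ] (G : β → Set Ω) (q : ℝ) (hq : ∀ b, (μ (G b)).toReal = q)
    (hqq : ∀ b b', b ≠ b' → (μ (G b ∩ G b')).toReal = q ^ 2) (E : Set Ω) (lam : ℝ) (F : Finset β) :
    0 ≤ (F.card : ℝ) * (q - q ^ 2) - 2 * lam * (∑ b ∈ F, (μ (E ∩ G b)).toReal -
      F.card * q * (μ E).toReal) + lam ^ 2 * (μ E).toReal := by
  classical
  have hint : ∀ A : Set Ω, Integrable (A.indicator (1 : Ω → ℝ)) μ := fun A =>
    (integrable_const (1 : ℝ)).indicator MeasurableSet.of_discrete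
  have hI : ∀ A : Set Ω, ∫ ω, A.indicator (1 : Ω → ℝ) ω ∂μ = (μ A).toReal := fun A =>
    integral_indicator_one MeasurableSet.of_discrete
  obtain ⟨c, hc⟩ : ∃ c : ℝ, c = F.card * q := ⟨_, rfl⟩
  have hpt : ∀ ω, (∑ b ∈ F, (G b).indicator (1 : Ω → ℝ) ω - c - lam * E.indicator (1 : Ω → ℝ) ω) ^ 2 =
      (∑ b ∈ F, ∑ b' ∈ F, (G b ∩ G b').indicator (1 : Ω → ℝ) ω) +
      (c ^ 2 + (lam ^ 2 + 2 * c * lam) * E.indicator (1 : Ω → ℝ) ω) -
      (2 * c) * (∑ b ∈ F, (G b).indicator (1 : Ω → ℝ) ω) -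
      (2 * lam) * (∑ b ∈ F, (E ∩ G b).indicator (1 : Ω → ℝ) ω) := by
    intro ω
    have h1 : ∑ b ∈ F, ∑ b' ∈ F, (G b ∩ G b').indicator (1 : Ω → ℝ) ω =
        (∑ b ∈ F, (G b).indicator (1 : Ω → ℝ) ω) ^ 2 := by
      rw [sq, Finset.sum_mul_sum]
      refine Finset.sum_congr rfl fun b _ => Finset.sum_congr rfl fun b' _ => ?_
      rw [Set.inter_indicator_one]
      rfl
    have h2 : ∑ b ∈ F, (E ∩ G b).indicator (1 : Ω → ℝ) ω =
        E.indicator (1 : Ω → ℝ) ω * ∑ b ∈ F, (G b).indicator (1 : Ω → ℝ) ω := by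
      rw [Finset.mul_sum]
      refine Finset.sum_congr rfl fun b _ => ?_
      rw [Set.inter_indicator_one]
      rfl
    have h3 : E.indicator (1 : Ω → ℝ) ω * E.indicator (1 : Ω → ℝ) ω = E.indicator (1 : Ω → ℝ) ω := by
      by_cases h : ω ∈ E
      · rw [Set.indicator_of_mem h]; simp
      · rw [Set.indicator_of_notMem h]; simp
    rw [h1, h2]
    linear_combination lam ^ 2 * h3
  have hA : Integrable (fun ω => ∑ b ∈ F, ∑ b' ∈ F, (G b ∩ G b').indicator (1 : Ω → ℝ) ω) μ :=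
    integrable_finset_sum _ fun b _ => integrable_finset_sum _ fun b' _ => hint _
  have hS1 : Integrable (fun ω => ∑ b ∈ F, (G b).indicator (1 : Ω → ℝ) ω) μ :=
    integrable_finset_sum _ fun b _ => hint _
  have hS2 : Integrable (fun ω => ∑ b ∈ F, (E ∩ G b).indicator (1 : Ω → ℝ) ω) μ :=
    integrable_finset_sum _ fun b _ => hint _
  have hE1 : Integrable (fun ω => (lam ^ 2 + 2 * c * lam) * E.indicator (1 : Ω → ℝ) ω) μ :=
    (hint E).const_mul _
  have hE : Integrable (fun ω => c ^ 2 + (lam ^ 2 + 2 * c * lam) * E.indicator (1 : Ω → ℝ) ω) μ :=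
    (integrable_const _).add hE1
  have h0 : 0 ≤ ∫ ω, (∑ b ∈ F, (G b).indicator (1 : Ω → ℝ) ω - c -
      lam * E.indicator (1 : Ω → ℝ) ω) ^ 2 ∂μ := integral_nonneg fun ω => sq_nonneg _
  rw [integral_congr_ae (Filter.Eventually.of_forall hpt)] at h0
  have hAE : Integrable (fun ω => (∑ b ∈ F, ∑ b' ∈ F, (G b ∩ G b').indicator (1 : Ω → ℝ) ω) +
      (c ^ 2 + (lam ^ 2 + 2 * c * lam) * E.indicator (1 : Ω → ℝ) ω)) μ := hA.add hE
  have hAES : Integrable (fun ω => (∑ b ∈ F, ∑ b' ∈ F, (G b ∩ G b').indicator (1 : Ω → ℝ) ω) +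
      (c ^ 2 + (lam ^ 2 + 2 * c * lam) * E.indicator (1 : Ω → ℝ) ω) -
      (2 * c) * (∑ b ∈ F, (G b).indicator (1 : Ω → ℝ) ω)) μ := hAE.sub (hS1.const_mul _)
  rw [integral_sub hAES (hS2.const_mul _),
    integral_sub hAE (hS1.const_mul _), integral_add hA hE,
    integral_add (integrable_const _) hE1, integral_const_mul, integral_const_mul, integral_const_mul,
    integral_finset_sum _ (fun b _ => integrable_finset_sum _ fun b' _ => hint _),
    integral_finset_sum _ (fun b _ => hint _), integral_finset_sum _ (fun b _ => hint _), hI] at h0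
  have hdd : ∑ b ∈ F, ∫ ω, ∑ b' ∈ F, (G b ∩ G b').indicator (1 : Ω → ℝ) ω ∂μ =
      F.card * (q + ((F.card : ℝ) - 1) * q ^ 2) := by
    rw [← nsmul_eq_mul, ← Finset.sum_const]
    refine Finset.sum_congr rfl fun b hb => ?_
    rw [integral_finset_sum _ (fun b' _ => hint _), ← Finset.add_sum_erase F _ hb, hI, Set.inter_self,
      hq]
    congr 1
    have h1 : ∀ b' ∈ F.erase b, ∫ ω, (G b ∩ G b').indicator (1 : Ω → ℝ) ω ∂μ = q ^ 2 := by
      intro b' hb'
      rw [hI, hqq b b' (Finset.ne_of_mem_erase hb').symm]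
    rw [Finset.sum_congr rfl h1, Finset.sum_const, Finset.card_erase_of_mem hb, nsmul_eq_mul]
    have h2 : 1 ≤ F.card := Finset.card_pos.2 ⟨b, hb⟩
    push_cast [Nat.cast_sub h2]
    ring
  rw [hdd] at h0
  simp only [hI, hq, Finset.sum_const, nsmul_eq_mul, integral_const, smul_eq_mul,
    probReal_univ, one_mul] at h0
  rw [hc] at h0
  linarith

theorem bessel {Ω β : Type} [MeasurableSpace Ω] [DiscreteMeasurableSpace Ω] (μ : Measure Ω)
    [IsProbabilityMeasure μ] (G : β → Set Ω) (q : ℝ) (hq : ∀ b, (μ (G b)).toReal = q)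
    (hqq : ∀ b b', b ≠ b' → (μ (G b ∩ G b')).toReal = q ^ 2) (E : Set Ω) (δ : ℝ) (hδ : 0 < δ) :
    {b | (μ E).toReal * q + δ ≤ (μ (E ∩ G b)).toReal}.Finite := by
  by_contra hinf
  have hinf' : {b | (μ E).toReal * q + δ ≤ (μ (E ∩ G b)).toReal}.Infinite := hinf
  obtain ⟨n, hn⟩ := exists_nat_gt (1 / (4 * δ ^ 2))
  obtain ⟨F, hF, hcard⟩ := hinf'.exists_subset_card_eq n
  have h1 := bessel_aux μ G q hq hqq E (n * δ) F
  rw [hcard] at h1
  have h2 : (n : ℝ) * ((μ E).toReal * q + δ) ≤ ∑ b ∈ F, (μ (E ∩ G b)).toReal := by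
    rw [← hcard, ← nsmul_eq_mul, ← Finset.sum_const]
    exact Finset.sum_le_sum fun b hb => hF hb
  have h3 : (μ E).toReal ≤ 1 := by
    have := prob_le_one (μ := μ) (s := E)
    exact ENNReal.toReal_le_of_le_ofReal zero_le_one (by simpa using this)
  have hpos : 0 < 4 * δ ^ 2 := by positivity
  rw [div_lt_iff₀ hpos] at hn
  have hn0 : (0 : ℝ) < n := by
    by_contra h
    rw [not_lt] at h
    have h4 : (n : ℝ) * (4 * δ ^ 2) ≤ 0 := mul_nonpos_of_nonpos_of_nonneg h hpos.le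
    linarith
  have h4 : q - q ^ 2 ≤ 1 / 4 := by nlinarith [sq_nonneg (q - 1 / 2)]
  have h5 : (n : ℝ) * (q - q ^ 2) ≤ n * (1 / 4) := mul_le_mul_of_nonneg_left h4 hn0.le
  have h6 : (n * δ : ℝ) ^ 2 * (μ E).toReal ≤ (n * δ) ^ 2 := by
    have := mul_le_mul_of_nonneg_left h3 (sq_nonneg (n * δ : ℝ))
    linarith
  have h7 : (2 * (n * δ) : ℝ) * (n * δ) ≤ 2 * (n * δ) * (∑ b ∈ F, (μ (E ∩ G b)).toReal -
      n * q * (μ E).toReal) := by
    apply mul_le_mul_of_nonneg_left _ (by positivity)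
    linarith
  have h8 : (n : ℝ) * (n * δ ^ 2) ≤ n * (1 / 4) := by
    nlinarith
  have h9 := le_of_mul_le_mul_left h8 hn0
  linarith

end Pool.Agent.H72.TG
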