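import Pool.Agent.H72.TG.Defs

/-!
# TG-7: finite hitting sets and the step of the combinatorial core (job)

* `core_K`. Suppose not: for every finite `K` there is a finite `V` disjoint from `K` such that
  for almost all `a` the set `F a` meets `V`. Construct recursively `V 0, V 1, …` with
  `V n` disjoint from `V 0 ∪ … ∪ V (n-1)`. By the countable intersection property
  (`eventually_countable_forall`) and `NeBot` there is an `a` such that `F a` meets every `V n`;
  points `e n ∈ F a ∩ V n` are different for different `n`, so `F a` is infinite: contradiction.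
* `core_step`. For each `j` with `j + 1 < k` and each of the finitely many `b ∈ G j` we have
  `∀ᶠ a, b ∉ L (j+1) a` (`inv`, `hL`), so `∀ᶠ a, Disjoint (G j) (L (j+1) a)` (finitely many `b`,
  `Filter.eventually_all_finite` or `Set.Finite` induction), and so for all `j < k - 1`
  simultaneously. Also `a ∈ C` for almost all `a`. As `G (k-1)` is disjoint from `L' (k-1)`, hence
  from `KF`, there are frequently many `a` with `F a` disjoint from `G (k-1)`.
  Combine (`Filter.Frequently.and_eventually`, `.exists`).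
-/

set_option autoImplicit false

open Filter

namespace Pool.Agent.H72.TG

theorem core_K {A N : Type} (f : Filter A) [f.NeBot] [CountableInterFilter f]
    (F : A → Set N) (hF : ∀ a, (F a).Finite) :
    ∃ K : Set N, K.Finite ∧ ∀ V : Set N, V.Finite → Disjoint V K →
      ∃ᶠ a in f, Disjoint (F a) V := by
  by_contra hcon
  have hcon' : ∀ K : Set N, K.Finite → ∃ V : Set N, V.Finite ∧ Disjoint V K ∧
      ∀ᶠ a in f, ¬ Disjoint (F a) V := by
    intro K hK
    by_contra h
    refine hcon ⟨K, hK, fun V hV hd => ?_⟩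
    by_contra h'
    exact h ⟨V, hV, hd, Filter.not_frequently.1 h'⟩
  choose! V hV1 hV2 hV3 using hcon'
  let W : ℕ → Set N := fun n => Nat.rec ∅ (fun _ K => K ∪ V K) n
  have hW0 : W 0 = ∅ := rfl
  have hWs : ∀ n, W (n + 1) = W n ∪ V (W n) := fun n => rfl
  have hW : ∀ n, (W n).Finite := by
    intro n
    induction n with
    | zero => rw [hW0]; exact Set.finite_empty
    | succ n ih => rw [hWs]; exact ih.union (hV1 _ ih)
  have hmono : Monotone W := monotone_nat_of_le_succ fun n => by
    rw [hWs]; exact Set.subset_union_left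
  have hev : ∀ᶠ a in f, ∀ n, ¬ Disjoint (F a) (V (W n)) :=
    eventually_countable_forall.2 fun n => hV3 _ (hW n)
  obtain ⟨a, ha⟩ := hev.exists
  have he : ∀ n, ∃ e, e ∈ F a ∧ e ∈ V (W n) := fun n => Set.not_disjoint_iff.1 (ha n)
  choose e he1 he2 using he
  have hlt : ∀ n m, n < m → e n ≠ e m := by
    intro n m hnm heq
    have h1 : e n ∈ W m := by
      apply hmono (Nat.succ_le_of_lt hnm)
      show e n ∈ W (n + 1)
      rw [hWs]
      exact Or.inr (he2 n)
    rw [heq] at h1
    exact Set.disjoint_left.1 (hV2 _ (hW m)) (he2 m) h1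
  have hinj : Function.Injective e := by
    intro n m hnm
    rcases lt_trichotomy n m with h | h | h
    · exact absurd hnm (hlt n m h)
    · exact h
    · exact absurd hnm.symm (hlt m n h)
  exact Set.infinite_of_injective_forall_mem hinj he1 (hF a)

theorem core_step {A N : Type} (f : Filter A) [f.NeBot] (k : ℕ) (hk : 1 ≤ k)
    (F : A → Set N) (KF : Set N)
    (hK : ∀ V : Set N, V.Finite → Disjoint V KF → ∃ᶠ a in f, Disjoint (F a) V)
    (L : ℕ → A → Set N) (L' : ℕ → Set N)
    (hL : ∀ j, j + 1 < k → ∀ b, b ∉ L' j → ∀ᶠ a in f, b ∉ L (j + 1) a)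
    (hKF : KF ⊆ L' (k - 1))
    (G : ℕ → Set N) (hG : ∀ j, (G j).Finite) (inv : ∀ j, j < k → Disjoint (G j) (L' j))
    (C : Set A) (hC : C ∈ f) :
    ∃ a ∈ C, Disjoint (F a) (G (k - 1)) ∧ ∀ j, j + 1 < k → Disjoint (G j) (L (j + 1) a) := by
  have h1 : ∀ᶠ a in f, ∀ j ∈ {j : ℕ | j < k}, j + 1 < k → Disjoint (G j) (L (j + 1) a) := by
    refine (Filter.eventually_all_finite (Set.finite_lt_nat k)).2 fun j hj => ?_
    by_cases hjk : j + 1 < k
    · have h2 : ∀ᶠ a in f, ∀ b ∈ G j, b ∉ L (j + 1) a :=
        (Filter.eventually_all_finite (hG j)).2 fun b hb =>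
          hL j hjk b (Set.disjoint_left.1 (inv j hj) hb)
      filter_upwards [h2] with a ha _
      exact Set.disjoint_left.2 ha
    · exact Filter.Eventually.of_forall fun a h => absurd h hjk
  have h2 : ∃ᶠ a in f, Disjoint (F a) (G (k - 1)) :=
    hK _ (hG _) ((inv (k - 1) (by omega)).mono_right hKF)
  obtain ⟨a, h3, h4, h5⟩ := (h2.and_eventually (h1.and hC)).exists
  exact ⟨a, h5, h3, fun j hj => h4 j (show j < k by omega) hj⟩

end Pool.Agent.H72.TG
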