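import Pool.Agent.H72.TG.Defs

/-!
# TG-3: windows (job)

`win k U n` lists `U (n+1-min (n+1) k), …, U n` (oldest first), `nwin k U n` the same entries,
newest first.

* `win_eq`: compare entries (`List.ext_getElem`, `List.getElem_reverse`).
* `win_map`, `nwin_map`: `List.map_map`.
* `nwin_take`: `(nwin (k+1) U n).take j = (List.range j).map (fun i => U (n-i))` for
  `j ≤ min (n+1) (k+1)`.
* `nwin_succ`: for `1 ≤ k`: `nwin k U (n+1) = U (n+1) :: (nwin k U n).take (k-1)`.
-/

set_option autoImplicit false

namespace Pool.Agent.H72.TG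

theorem win_eq {α : Type} (k : ℕ) (U : ℕ → α) (n : ℕ) : win k U n = (nwin k U n).reverse := by
  unfold win nwin
  apply List.ext_getElem
  · simp
  · intro i h1 h2
    simp only [List.length_map, List.length_range] at h1
    rw [List.getElem_reverse]
    simp only [List.getElem_map, List.getElem_range, List.length_map, List.length_range]
    congr 1
    omega

theorem nwin_map {α β : Type} (f : α → β) (k : ℕ) (U : ℕ → α) (n : ℕ) :
    (nwin k U n).map f = nwin k (fun i => f (U i)) n := by
  unfold nwin
  rw [List.map_map]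
  rfl

theorem nwin_length {α : Type} (k : ℕ) (U : ℕ → α) (n : ℕ) :
    (nwin k U n).length = min (n + 1) k := by
  simp [nwin]

theorem nwin_take {α : Type} (k : ℕ) (U : ℕ → α) (n j : ℕ) (hj : j ≤ min (n + 1) k) :
    (nwin k U n).take j = (List.range j).map (fun i => U (n - i)) := by
  unfold nwin
  rw [← List.map_take, List.take_range, min_eq_left hj]

theorem nwin_succ {α : Type} (k : ℕ) (hk : 1 ≤ k) (U : ℕ → α) (n : ℕ) :
    nwin k U (n + 1) = U (n + 1) :: (nwin k U n).take (k - 1) := by
  unfold nwin
  rw [← List.map_take, List.take_range]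
  have h1 : min (n + 1 + 1) k = min (k - 1) (min (n + 1) k) + 1 := by omega
  rw [h1, List.range_succ_eq_map, List.map_cons, List.map_map]
  congr 1
  apply List.map_congr_left
  intro i _
  simp only [Function.comp_apply]
  congr 1
  omega

theorem nwin_zero {α : Type} (k : ℕ) (hk : 1 ≤ k) (U : ℕ → α) : nwin k U 0 = [U 0] := by
  unfold nwin
  have h1 : min (0 + 1) k = 1 := by omega
  rw [h1]
  rfl

/-- the window only depends on the values up to time `n` -/
theorem nwin_congr {α : Type} (k : ℕ) (U U' : ℕ → α) (n : ℕ) (h : ∀ i, i ≤ n → U i = U' i) :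
    nwin k U n = nwin k U' n := by
  unfold nwin
  apply List.map_congr_left
  intro i _
  exact h _ (Nat.sub_le _ _)

end Pool.Agent.H72.TG
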