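import Pool.Agent.H72.TG.CoreA
import Pool.Agent.H72.TG.Win

/-!
# TG-8: the combinatorial core (job)

Histories are lists of elements of a countable type `τT` (newest first), `A` carries a filter `f`
(countably complete, proper), `F h as` (finite set of names, guesses made after history `h` if the
window of the last moves is `as`, newest first), `lo h as : A` a lower bound required for the next
move. We construct moves `av h : A` for all histories `h` such that along every branch every
`b ∈ Pn` outside `mem (av [])` is guessed at finitely many times.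

DEFINITIONS. `Lm f Kc 0 as = Kc as`, `Lm f Kc (m+1) as = {b | ∃ᶠ a in f, b ∈ Lm f Kc m (a :: as)}`.
`Gs k F Z h as j` = names outside `Z` guessed at least `j` rounds ago.

PROOF of `core`.
(1) By `core_K` choose for all `h` and `as : List A` a finite set `KF h as` for the function
`a ↦ F h (a :: as)`; `Kc as = ⋃ h, KF h as` is countable (histories are countable). By `hup` and
induction `#(Lm f Kc m as) ≤ κ m` for `m < k` (`Lm_card`). By `cov` choose `a0` with
`Lm f Kc (k-1) [] ∩ Pn ⊆ mem a0`. Put `Z = mem a0 ∪ Pnᶜ`.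
(2) Invariant `Inv h as`: `∀ j < k, Disjoint (Gs k F Z h as j) (Lm f Kc (k-1-j) (as.take j))`.
`Inv [] [a0]`: for `j = 0` the set `Lm f Kc (k-1) []` is contained in `Z`, for `j ≥ 1`
`Gs … [] _ j` is empty.
(3) Step: if `Inv h as` then for all `t` there is `a` with `le (lo h (as.take k)) a`,
`Inv (t :: h) (a :: as)` and
`Disjoint (F (t :: h) (a :: as.take (k-1))) (Gs k F Z h as (k-1))`.
Apply `core_step` with `F := fun a => F (t :: h) (a :: as.take (k-1))`,
`KF := KF (t :: h) (as.take (k-1))`, `L j a := Lm f Kc (k-1-j) (a :: as.take (j-1))`,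
`L' j := Lm f Kc (k-1-j) (as.take j)`, `G j := Gs k F Z h as j`, `C = {a | le (lo h (as.take k)) a}`.
(`hL`: for `j + 1 < k`, `k-1-j = (k-1-(j+1)) + 1`, so `b ∉ L' j` means exactly
`¬ ∃ᶠ a, b ∈ Lm f Kc (k-1-(j+1)) (a :: as.take j)`.) Then `Inv (t :: h) (a :: as)`: for `j = 0` again
because `Lm f Kc (k-1) [] ⊆ Z`; for `j + 1 < k`: `Gs k F Z (t::h) (a::as) (j+1) = Gs k F Z h as j`.
(4) Recursion: `st [] = [a0]`, `st (t :: h) = nx t h (st h) :: st h` with `nx` chosen by (3)
(arbitrary if `Inv` fails; by induction `Inv h (st h)` always). `av h` = head of `st h`. Along a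
branch `s : ℕ → τT` with `hist s n` the history: `st (hist s n) = [α n, α (n-1), …, α 0]` where
`α i = av (hist s i)`, so `(st (hist s n)).take k = nwin k α n`.
(5) The first clause is the choice of `nx`. For the second let `b ∈ Pn`, `b ∉ mem (av [])`, so
`b ∉ Z`, and suppose that `b` is guessed at time `m`. If `n ≥ m + k` then `n ≥ 1` and `b` belongs to
`Gs k F Z (hist s (n-1)) (st (hist s (n-1))) (k-1)` (guessed at time `m ≤ n-1-(k-1)`), so it is not
in the guess set of time `n`. Hence all guesses of `b` are in `[m, m+k)`.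
-/

set_option autoImplicit false

open Filter Cardinal

namespace Pool.Agent.H72.TG

/-- history of length `n` along the branch `s` (newest first) -/
def hist {τT : Type} (s : ℕ → τT) : ℕ → List τT
  | 0 => []
  | n + 1 => s n :: hist s n

/-- the sets `L_{k-1-m}` -/
def Lm {A N : Type} (f : Filter A) (Kc : List A → Set N) : ℕ → List A → Set N
  | 0, as => Kc as
  | m + 1, as => {b | ∃ᶠ a in f, b ∈ Lm f Kc m (a :: as)}

/-- names outside `Z` guessed at least `j` rounds ago -/
def Gs {τT A N : Type} (k : ℕ) (F : List τT → List A → Set N) (Z : Set N) (h : List τT)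
    (as : List A) (j : ℕ) : Set N :=
  {b | b ∉ Z ∧ ∃ j', j ≤ j' ∧ j' ≤ h.length ∧ b ∈ F (h.drop j') ((as.drop j').take k)}

theorem Lm_card {A N : Type} (f : Filter A) (Kc : List A → Set N) (k : ℕ) (κ : ℕ → Cardinal)
    (hup : ∀ m, m + 1 < k → ∀ L : A → Set N, (∀ a, #(L a) ≤ κ m) →
      #{b | ∃ᶠ a in f, b ∈ L a} ≤ κ (m + 1))
    (h0 : ∀ as, #(Kc as) ≤ κ 0) (m : ℕ) (hm : m < k) (as : List A) :
    #(Lm f Kc m as) ≤ κ m := by
  induction m generalizing as with
  | zero => exact h0 as
  | succ m ih => exact hup m hm (fun a => Lm f Kc m (a :: as)) fun a => ih (by omega) (a :: as)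

theorem Gs_finite {τT A N : Type} (k : ℕ) (F : List τT → List A → Set N)
    (hF : ∀ h as, (F h as).Finite) (Z : Set N) (h : List τT) (as : List A) (j : ℕ) :
    (Gs k F Z h as j).Finite := by
  refine Set.Finite.subset (Set.Finite.biUnion (Set.finite_Iic h.length) fun j' _ =>
    hF (h.drop j') ((as.drop j').take k)) ?_
  rintro b ⟨_, j', _, h2, h3⟩
  exact Set.mem_biUnion (Set.mem_Iic.2 h2) h3

theorem Gs_cons {τT A N : Type} (k : ℕ) (F : List τT → List A → Set N) (Z : Set N)
    (h : List τT) (as : List A) (j : ℕ) (t : τT) (a : A) :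
    Gs k F Z (t :: h) (a :: as) (j + 1) = Gs k F Z h as j := by
  ext b
  constructor
  · rintro ⟨h0, j', h1, h2, h3⟩
    obtain ⟨i, rfl⟩ : ∃ i, j' = i + 1 := ⟨j' - 1, by omega⟩
    rw [List.drop_succ_cons, List.drop_succ_cons] at h3
    rw [List.length_cons] at h2
    exact ⟨h0, i, by omega, by omega, h3⟩
  · rintro ⟨h0, i, h1, h2, h3⟩
    refine ⟨h0, i + 1, by omega, by rw [List.length_cons]; omega, ?_⟩
    rw [List.drop_succ_cons, List.drop_succ_cons]
    exact h3

theorem CoreB_hist_length {τT : Type} (s : ℕ → τT) (n : ℕ) : (hist s n).length = n := by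
  induction n with
  | zero => rfl
  | succ n ih => rw [hist, List.length_cons, ih]

theorem CoreB_hist_drop {τT : Type} (s : ℕ → τT) (m d : ℕ) : (hist s (m + d)).drop d = hist s m := by
  induction d with
  | zero => rfl
  | succ d ih =>
    rw [← Nat.add_assoc, hist, List.drop_succ_cons, ih]

theorem core {τT A N : Type} [Countable τT] (k : ℕ) (hk : 1 ≤ k) (le : A → A → Prop)
    (f : Filter A) [f.NeBot] [CountableInterFilter f] (cone : ∀ a0, ∀ᶠ a in f, le a0 a)
    (κ : ℕ → Cardinal) (hκ : ℵ₀ ≤ κ 0)
    (hup : ∀ m, m + 1 < k → ∀ L : A → Set N, (∀ a, #(L a) ≤ κ m) →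
      #{b | ∃ᶠ a in f, b ∈ L a} ≤ κ (m + 1))
    (mem : A → Set N) (Pn : Set N)
    (cov : ∀ Q : Set N, #Q ≤ κ (k - 1) → ∃ a0, Q ∩ Pn ⊆ mem a0)
    (F : List τT → List A → Set N) (hF : ∀ h as, (F h as).Finite)
    (lo : List τT → List A → A) :
    ∃ av : List τT → A, ∀ s : ℕ → τT,
      (∀ n, le (lo (hist s n) (nwin k (fun i => av (hist s i)) n)) (av (hist s (n + 1)))) ∧
      ∀ b, b ∈ Pn → b ∉ mem (av []) →
        {n | b ∈ F (hist s n) (nwin k (fun i => av (hist s i)) n)}.Finite := by
  classical
  have hKex : ∀ (h : List τT) (as : List A), ∃ K : Set N, K.Finite ∧ ∀ V : Set N, V.Finite → Disjoint V K →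
      ∃ᶠ a in f, Disjoint (F h (a :: as)) V := fun h as =>
    core_K f (fun a => F h (a :: as)) fun a => hF _ _
  choose KF hKf hKd using hKex
  let Kc : List A → Set N := fun as => ⋃ h : List τT, KF h as
  have hKc : ∀ as, #(Kc as) ≤ κ 0 := by
    intro as
    have h1 : (Kc as).Countable := Set.countable_iUnion fun h => (hKf h as).countable
    exact h1.le_aleph0.trans hκ
  obtain ⟨a0, ha0⟩ := cov (Lm f Kc (k - 1) []) (Lm_card f Kc k κ hup hKc (k - 1) (by omega) [])
  let Z : Set N := mem a0 ∪ Pnᶜ
  have hZ : Lm f Kc (k - 1) [] ⊆ Z := by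
    intro b hb
    by_cases hbP : b ∈ Pn
    · exact Or.inl (ha0 ⟨hb, hbP⟩)
    · exact Or.inr hbP
  let Inv : List τT → List A → Prop := fun h as =>
    ∀ j, j < k → Disjoint (Gs k F Z h as j) (Lm f Kc (k - 1 - j) (as.take j))
  have hInv0 : ∀ (h : List τT) (as : List A), Disjoint (Gs k F Z h as 0) (Lm f Kc (k - 1 - 0) (as.take 0)) := by
    intro h as
    rw [Set.disjoint_left]
    intro b hb hb'
    exact hb.1 (hZ hb')
  have hstep : ∀ (h : List τT) (as : List A), Inv h as → ∀ t : τT, ∃ a, le (lo h (as.take k)) a ∧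
      Inv (t :: h) (a :: as) ∧ Disjoint (F (t :: h) (a :: as.take (k - 1))) (Gs k F Z h as (k - 1)) := by
    intro h as hI t
    obtain ⟨a, ha, h1, h2⟩ := core_step f k hk (fun a => F (t :: h) (a :: as.take (k - 1)))
      (KF (t :: h) (as.take (k - 1))) (hKd (t :: h) (as.take (k - 1)))
      (fun j a => Lm f Kc (k - 1 - j) (a :: as.take (j - 1)))
      (fun j => Lm f Kc (k - 1 - j) (as.take j)) (by
        intro j hj b hb
        have e : k - 1 - j = (k - 1 - (j + 1)) + 1 := by omega
        have hb' : ¬ ∃ᶠ a in f, b ∈ Lm f Kc (k - 1 - (j + 1)) (a :: as.take j) := by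
          intro h3
          apply hb
          rw [e]
          exact h3
        exact not_frequently.1 hb') (by
        intro b hb
        show b ∈ Lm f Kc (k - 1 - (k - 1)) (as.take (k - 1))
        rw [Nat.sub_self]
        exact Set.mem_iUnion.2 ⟨t :: h, hb⟩) (fun j => Gs k F Z h as j)
      (fun j => Gs_finite k F hF Z h as j) hI {a | le (lo h (as.take k)) a} (cone _)
    refine ⟨a, ha, fun j hj => ?_, h1⟩
    rcases Nat.eq_zero_or_pos j with rfl | hj0
    · exact hInv0 _ _
    · obtain ⟨i, rfl⟩ : ∃ i, j = i + 1 := ⟨j - 1, by omega⟩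
      rw [Gs_cons, List.take_succ_cons]
      exact h2 i hj
  let nx : τT → List τT → List A → A := fun t h as =>
    if H : ∃ a, le (lo h (as.take k)) a ∧ Inv (t :: h) (a :: as) ∧
      Disjoint (F (t :: h) (a :: as.take (k - 1))) (Gs k F Z h as (k - 1)) then H.choose else a0
  let st : List τT → List A := fun h => List.rec [a0] (fun t h as => nx t h as :: as) h
  have st0 : st [] = [a0] := rfl
  have st1 : ∀ t h, st (t :: h) = nx t h (st h) :: st h := fun t h => rfl
  have hI : ∀ h, Inv h (st h) := by
    intro h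
    induction h with
    | nil =>
      intro j hj
      rcases Nat.eq_zero_or_pos j with rfl | hj0
      · exact hInv0 _ _
      · rw [Set.disjoint_left]
        rintro b ⟨_, j', h1, h2, _⟩ _
        rw [List.length_nil] at h2
        omega
    | cons t h ih =>
      rw [st1]
      have H := hstep h (st h) ih t
      have e : nx t h (st h) = H.choose := dif_pos H
      rw [e]
      exact H.choose_spec.2.1
  have hnx : ∀ t h, le (lo h ((st h).take k)) (nx t h (st h)) ∧
      Disjoint (F (t :: h) (nx t h (st h) :: (st h).take (k - 1))) (Gs k F Z h (st h) (k - 1)) := by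
    intro t h
    have H := hstep h (st h) (hI h) t
    have e : nx t h (st h) = H.choose := dif_pos H
    rw [e]
    exact ⟨H.choose_spec.1, H.choose_spec.2.2⟩
  let av : List τT → A := fun h => (st h).headD a0
  have av0 : av [] = a0 := rfl
  have av1 : ∀ t h, av (t :: h) = nx t h (st h) := fun t h => rfl
  have hst : ∀ (s : ℕ → τT) n, (st (hist s n)).take k = nwin k (fun i => av (hist s i)) n := by
    intro s n
    induction n with
    | zero =>
      rw [nwin_zero k hk]
      show [a0].take k = [a0]
      obtain ⟨i, rfl⟩ : ∃ i, k = i + 1 := ⟨k - 1, by omega⟩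
      simp
    | succ n ih =>
      rw [nwin_succ k hk, ← ih, List.take_take]
      have e1 : min (k - 1) k = k - 1 := by omega
      rw [e1]
      show (nx (s n) (hist s n) (st (hist s n)) :: st (hist s n)).take k = _
      obtain ⟨i, rfl⟩ : ∃ i, k = i + 1 := ⟨k - 1, by omega⟩
      rw [List.take_succ_cons]
      rfl
  have hstd : ∀ (s : ℕ → τT) m d, (st (hist s (m + d))).drop d = st (hist s m) := by
    intro s m d
    induction d with
    | zero => rfl
    | succ d ih =>
      rw [← Nat.add_assoc]
      show (nx (s (m + d)) (hist s (m + d)) (st (hist s (m + d))) :: st (hist s (m + d))).drop (d + 1) = _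
      rw [List.drop_succ_cons, ih]
  refine ⟨av, fun s => ⟨fun n => ?_, fun b hbP hb => ?_⟩⟩
  · rw [← hst s n]
    exact (hnx (s n) (hist s n)).1
  · have hbZ : b ∉ Z := by
      rintro (h1 | h1)
      · exact hb h1
      · exact h1 hbP
    have key : ∀ m n, b ∈ F (hist s m) (nwin k (fun i => av (hist s i)) m) →
        b ∈ F (hist s n) (nwin k (fun i => av (hist s i)) n) → n < m + k := by
      intro m n hm hn
      by_contra hlt
      obtain ⟨n', rfl⟩ : ∃ n', n = n' + 1 := ⟨n - 1, by omega⟩
      have h1 := (hnx (s n') (hist s n')).2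
      rw [nwin_succ k hk, ← hst s n', List.take_take] at hn
      have e1 : min (k - 1) k = k - 1 := by omega
      rw [e1] at hn
      refine Set.disjoint_left.1 h1 hn ⟨hbZ, n' - m, by omega, ?_, ?_⟩
      · rw [CoreB_hist_length]; omega
      · have e2 : n' = m + (n' - m) := by omega
        have h2 := CoreB_hist_drop s m (n' - m)
        have h3 := hstd s m (n' - m)
        rw [← e2] at h2 h3
        rw [h2, h3, hst]
        exact hm
    by_cases hex : ∃ m, b ∈ F (hist s m) (nwin k (fun i => av (hist s i)) m)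
    · obtain ⟨m, hm⟩ := hex
      exact (Set.finite_Iio (m + k)).subset fun n hn => key m n hm hn
    · push Not at hex
      refine Set.finite_empty.subset fun n hn => hex n hn

end Pool.Agent.H72.TG
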