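import Pool.Agent.H72.TG.Words

/-!
# TG-12: hitting events of a fixed word sequence (job)

`z ω b` (`b : N`) is a family of random bit sequences; `coin1`, `coin2`: the probability that a
prefix of `z ω b` is a given word of length `n` is `2^{-n}`, and prefixes of two different
sequences are independent. For a finite sequence of words `t` let
`G b = {ω | HitP (z ω b) t m}`: for some position `p ∈ [m, t.length)` the entry of `t` is the
prefix of length `p` of `z ω b`.

PROOF. Let `l = t.length` and `Φ` the finite set of words `v` of length `l` such that for some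
`p ∈ [m, l)`, `t.getD p [] = v.take p`. As `pre z p = (pre z l).take p` for `p ≤ l`,
`G b = {ω | pre (z ω b) l ∈ Φ}` is the disjoint union over `v ∈ Φ` of the cylinders, so
`μ (G b) = #Φ 2^{-l} =: q` and for `b ≠ b'`, `μ (G b ∩ G b') = #Φ^2 2^{-2l} = q^2` (double union).
Moreover `G b` is contained in the union of the events `pre (z ω b) p = t.getD p []` over
`p ∈ [m, l)`, each of probability `≤ 2^{-p}` (zero if the length is not `p`), so
`q ≤ ∑_{p ≥ m} 2^{-p} ≤ 2 * 2^{-m}`. If `N` is empty take `q = 0`.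
-/

set_option autoImplicit false

open MeasureTheory

namespace Pool.Agent.H72.TG

/-- `t` hits `z` at a position `≥ m` -/
def HitP (z : ℕ → Bool) (t : T) (m : ℕ) : Prop :=
  ∃ p, m ≤ p ∧ p < t.length ∧ t.getD p [] = pre z p

theorem Cyl_take_pre (z : ℕ → Bool) {p l : ℕ} (h : p ≤ l) : (pre z l).take p = pre z p := by
  simp only [pre, ← List.map_take, List.take_range, min_eq_left h]

theorem Cyl_sum {Ω α : Type} [MeasurableSpace Ω] [DiscreteMeasurableSpace Ω] (μ : Measure Ω)
    (f : Ω → α) (Φ : Finset α) : μ {ω | f ω ∈ Φ} = ∑ v ∈ Φ, μ {ω | f ω = v} := by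
  classical
  have h : {ω | f ω ∈ Φ} = ⋃ v ∈ Φ, {ω | f ω = v} := by
    ext ω
    simp
  rw [h]
  refine measure_biUnion_finset ?_ (fun v _ => MeasurableSet.of_discrete)
  intro v _ v' _ hne
  refine Set.disjoint_left.2 fun ω h1 h2 => hne ?_
  exact (show f ω = v from h1).symm.trans h2

theorem Cyl_half (n : ℕ) : (((1 : ENNReal) / 2) ^ n).toReal = (1 / 2 : ℝ) ^ n := by
  simp

theorem Cyl_geom (m l : ℕ) : ∑ p ∈ Finset.Ico m l, (1 / 2 : ℝ) ^ p ≤ 2 * (1 / 2) ^ m := by
  rcases le_total m l with h | h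
  · have key : ∑ p ∈ Finset.Ico m l, (1 / 2 : ℝ) ^ p = 2 * (1 / 2) ^ m - 2 * (1 / 2) ^ l := by
      induction l, h using Nat.le_induction with
      | base => simp
      | succ l hl ih =>
        rw [Finset.sum_Ico_succ_top hl, ih, pow_succ]
        ring
    rw [key]
    have : (0 : ℝ) < (1 / 2) ^ l := by positivity
    linarith
  · rw [Finset.Ico_eq_empty (by omega)]
    simp

theorem cyl {Ω N : Type} [MeasurableSpace Ω] [DiscreteMeasurableSpace Ω] (μ : Measure Ω)
    [IsProbabilityMeasure μ] (z : Ω → N → ℕ → Bool)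
    (coin1 : ∀ (b : N) (v : W), μ {ω | pre (z ω b) v.length = v} = (1 / 2) ^ v.length)
    (coin2 : ∀ (b b' : N) (v v' : W), b ≠ b' →
      μ {ω | pre (z ω b) v.length = v ∧ pre (z ω b') v'.length = v'} =
        (1 / 2) ^ v.length * (1 / 2) ^ v'.length) (t : T) (m : ℕ) :
    ∃ q : ℝ, 0 ≤ q ∧ q ≤ 2 * (1 / 2) ^ m ∧ (∀ b, (μ {ω | HitP (z ω b) t m}).toReal = q) ∧
      ∀ b b', b ≠ b' →
        (μ ({ω | HitP (z ω b) t m} ∩ {ω | HitP (z ω b') t m})).toReal = q ^ 2 := by
  classical
  set l := t.length with hl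
  have hfin : {v : W | v.length = l ∧ ∃ p, m ≤ p ∧ p < l ∧ t.getD p [] = v.take p}.Finite :=
    (List.finite_length_eq Bool l).subset fun v hv => hv.1
  set Φ : Finset W := hfin.toFinset with hΦ
  have hmem : ∀ u : ℕ → Bool, HitP u t m ↔ pre u l ∈ Φ := by
    intro u
    rw [hΦ, Set.Finite.mem_toFinset]
    constructor
    · rintro ⟨p, h1, h2, h3⟩
      exact ⟨pre_length _ _, p, h1, h2, by rw [h3, Cyl_take_pre _ h2.le]⟩
    · rintro ⟨_, p, h1, h2, h3⟩
      exact ⟨p, h1, h2, by rw [h3, Cyl_take_pre _ h2.le]⟩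
  have hlen : ∀ v ∈ Φ, v.length = l := by
    intro v hv
    rw [hΦ, Set.Finite.mem_toFinset] at hv
    exact hv.1
  have h1 : ∀ b, μ {ω | HitP (z ω b) t m} = (Φ.card : ENNReal) * (1 / 2) ^ l := by
    intro b
    have e : {ω | HitP (z ω b) t m} = {ω | (fun ω => pre (z ω b) l) ω ∈ Φ} := by
      ext ω
      exact hmem (z ω b)
    rw [e, Cyl_sum, Finset.sum_congr rfl (g := fun _ => (1 / 2 : ENNReal) ^ l), Finset.sum_const,
      nsmul_eq_mul]
    intro v hv
    have := coin1 b v
    rw [hlen v hv] at this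
    exact this
  have h2 : ∀ b b', b ≠ b' → μ ({ω | HitP (z ω b) t m} ∩ {ω | HitP (z ω b') t m}) =
      ((Φ.card : ENNReal) * (1 / 2) ^ l) ^ 2 := by
    intro b b' hne
    have e : {ω | HitP (z ω b) t m} ∩ {ω | HitP (z ω b') t m} =
        {ω | (fun ω => (pre (z ω b) l, pre (z ω b') l)) ω ∈ Φ ×ˢ Φ} := by
      ext ω
      rw [Set.mem_inter_iff, Set.mem_ofPred_eq, Set.mem_ofPred_eq, Set.mem_ofPred_eq,
        Finset.mem_product, hmem, hmem]
    rw [e, Cyl_sum, Finset.sum_congr rfl
      (g := fun _ => (1 / 2 : ENNReal) ^ l * (1 / 2 : ENNReal) ^ l), Finset.sum_const,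
      nsmul_eq_mul, Finset.card_product]
    · push_cast
      ring
    · rintro ⟨v, v'⟩ hv
      rw [Finset.mem_product] at hv
      have := coin2 b b' v v' hne
      rw [hlen v hv.1, hlen v' hv.2] at this
      rw [← this]
      congr 1
      ext ω
      simp [Prod.ext_iff]
  have hq : (((Φ.card : ENNReal) * (1 / 2) ^ l)).toReal = (Φ.card : ℝ) * (1 / 2) ^ l := by
    rw [ENNReal.toReal_mul, Cyl_half, ENNReal.toReal_natCast]
  rcases isEmpty_or_nonempty N with hN | ⟨⟨b0⟩⟩
  · exact ⟨0, le_rfl, by positivity, fun b => (hN.false b).elim, fun b => (hN.false b).elim⟩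
  refine ⟨(Φ.card : ℝ) * (1 / 2) ^ l, by positivity, ?_, ?_, ?_⟩
  · rw [← hq, ← h1 b0]
    have hsub : {ω | HitP (z ω b0) t m} ⊆
        ⋃ p ∈ Finset.Ico m l, {ω | pre (z ω b0) p = t.getD p []} := by
      rintro ω ⟨p, h3, h4, h5⟩
      simp only [Set.mem_iUnion, Finset.mem_Ico, Set.mem_ofPred_eq]
      exact ⟨p, ⟨h3, h4⟩, h5.symm⟩
    have hp : ∀ p, μ {ω | pre (z ω b0) p = t.getD p []} ≤ (1 / 2) ^ p := by
      intro p
      by_cases hc : (t.getD p []).length = p
      · have := coin1 b0 (t.getD p [])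
        rw [hc] at this
        exact this.le
      · have : {ω | pre (z ω b0) p = t.getD p []} = ∅ := by
          ext ω
          simp only [Set.mem_ofPred_eq, Set.mem_empty_iff_false, iff_false]
          intro h
          exact hc (by rw [← h, pre_length])
        rw [this]
        simp
    have hle : μ {ω | HitP (z ω b0) t m} ≤ ∑ p ∈ Finset.Ico m l, (1 / 2 : ENNReal) ^ p :=
      (measure_mono hsub).trans ((measure_biUnion_finset_le _ _).trans
        (Finset.sum_le_sum fun p _ => hp p))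
    have hne : ∑ p ∈ Finset.Ico m l, (1 / 2 : ENNReal) ^ p ≠ ⊤ := by
      rw [ENNReal.sum_ne_top]
      intro p _
      exact ENNReal.pow_ne_top (by simp)
    refine (ENNReal.toReal_mono hne hle).trans ?_
    rw [ENNReal.toReal_sum (fun p _ => ENNReal.pow_ne_top (by simp))]
    simp only [Cyl_half]
    exact Cyl_geom m l
  · intro b
    rw [h1 b, hq]
  · intro b b' hne
    rw [h2 b b' hne, ENNReal.toReal_pow, hq]

end Pool.Agent.H72.TG
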