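import Mathlib

/-!
# Telgarsky's conjecture: definitions

Words, finite sequences of words, capturing, the basic sets `U x s a`, the topology, windows and
tactics in the Banach-Mazur game.
-/

set_option autoImplicit false

namespace Pool.Agent.H72.TG

/-- words -/
abbrev W := List Bool

/-- finite sequences of words (oldest first) -/
abbrev T := List W

/-- the prefix of length `n` of the bit sequence `z` -/
def pre (z : ℕ → Bool) (n : ℕ) : W := (List.range n).map z

/-- `r` captures `z`: infinitely many `r n` are the prefix of length `n` of `z` -/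
def Cap (z : ℕ → Bool) (r : ℕ → W) : Prop := {n | r n = pre z n}.Infinite

/-- `r` extends the finite sequence `s` -/
def Ext (s : T) (r : ℕ → W) : Prop := ∀ i, i < s.length → s.getD i [] = r i

/-- a system of names: `N` names with levels, `A` sets of names (levels `1..k`) -/
structure Sys where
  k : ℕ
  hk : 1 ≤ k
  N : Type
  A : Type
  lev : N → ℕ
  mem : A → Set N
  memlev : ∀ a, ∀ b ∈ mem a, 1 ≤ lev b ∧ lev b ≤ k
  fresh : ∀ a i, 1 ≤ i → i ≤ k → ∃ b, lev b = i ∧ b ∉ mem a
  dir : ∀ a a', ∃ a'', mem a ⊆ mem a'' ∧ mem a' ⊆ mem a''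
  fin : ∀ (a : A) (F : Set N), F.Finite → (∀ b ∈ F, 1 ≤ lev b ∧ lev b ≤ k) →
    ∃ a', mem a ⊆ mem a' ∧ F ⊆ mem a'
  ne : Nonempty A

namespace Sys

variable (S : Sys) (x : S.N → ℕ → Bool)

/-- the basic set `U(s,a)`: all `r` extending `s` that capture on every level `1..k` a name
outside `a` -/
def U (s : T) (a : S.A) : Set (ℕ → W) :=
  {r | Ext s r ∧ ∀ i, 1 ≤ i → i ≤ S.k → ∃ b, S.lev b = i ∧ b ∉ S.mem a ∧ Cap (x b) r}

/-- the topology generated by the cylinders and the sets `U(s,a)` -/
def top : TopologicalSpace (ℕ → W) :=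
  TopologicalSpace.generateFrom
    ({O | ∃ s : T, O = {r | Ext s r}} ∪ {O | ∃ (s : T) (a : S.A), O = S.U x s a})

end Sys

/-- window of the last `min(k, n+1)` entries of `U` up to time `n`, oldest first (format of the
frozen statement) -/
def win {α : Type} (k : ℕ) (U : ℕ → α) (n : ℕ) : List α :=
  (List.range (min (n + 1) k)).map (fun i => U (n + 1 - min (n + 1) k + i))

/-- the same window, newest first -/
def nwin {α : Type} (k : ℕ) (U : ℕ → α) (n : ℕ) : List α :=
  (List.range (min (n + 1) k)).map (fun i => U (n - i))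

/-- `σ` is a winning `k`-tactic for the second player in the Banach-Mazur game on `X` -/
def IsTactic (X : Type) (tX : TopologicalSpace X) (k : ℕ) (σ : List (Set X) → Set X) : Prop :=
  (∀ (U : ℕ → Set X) (n : ℕ), IsOpen (U 0) → (U 0).Nonempty →
    (∀ m < n, IsOpen (U (m + 1)) ∧ (U (m + 1)).Nonempty ∧ U (m + 1) ⊆ σ (win k U m)) →
    (IsOpen (σ (win k U n)) ∧ (σ (win k U n)).Nonempty ∧ σ (win k U n) ⊆ U n)) ∧
  (∀ U : ℕ → Set X, IsOpen (U 0) → (U 0).Nonempty →
    (∀ m : ℕ, IsOpen (U (m + 1)) ∧ (U (m + 1)).Nonempty ∧ U (m + 1) ⊆ σ (win k U m)) →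
    (⋂ n : ℕ, σ (win k U n)).Nonempty)

end Pool.Agent.H72.TG
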