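import Pool.Agent.H72.TG.Words
import Pool.Agent.H72.TG.Win
import Pool.Agent.H72.TG.CoreB

/-!
# TG-15: dummy extensions and histories (job)

* `dummy t n` extends `t` to length at least `n` by words of wrong length: at position `p` the
  word has length `p + 1`, so it is never a prefix of length `p` of anything.
* `zipw sh h as` = the window of pairs: entries `(sh (h.drop j), as_j)` for `j < as.length`.
* `zipw_hist`, `asOf_hist`: along a branch these are the windows `nwin`. The tails of `hist s n` are
  `hist s n, hist s (n-1), …, hist s 0` (`List.tails`), i.e.
  `(hist s n).tails = (List.range (n+1)).map (fun i => hist s (n - i))`.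
-/

set_option autoImplicit false

namespace Pool.Agent.H72.TG

/-- extension of `t` to length `≥ n` by words of wrong length -/
def dummy (t : T) (n : ℕ) : T :=
  t ++ (List.range (n - t.length)).map (fun j => List.replicate (t.length + j + 1) true)

theorem dummy_prefix (t : T) (n : ℕ) : t <+: dummy t n := List.prefix_append _ _

theorem dummy_length (t : T) (n : ℕ) : n ≤ (dummy t n).length := by
  unfold dummy
  rw [List.length_append, List.length_map, List.length_range]
  omega

theorem dummy_ne (t : T) (n p : ℕ) (h1 : t.length ≤ p) (h2 : p < (dummy t n).length)
    (z : ℕ → Bool) : (dummy t n).getD p [] ≠ pre z p := by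
  intro h
  have h3 := congrArg List.length h
  rw [pre_length] at h3
  have h4 : p - t.length < ((List.range (n - t.length)).map
      (fun j => List.replicate (t.length + j + 1) true)).length := by
    unfold dummy at h2
    rw [List.length_append] at h2
    omega
  unfold dummy at h3
  rw [List.getD_append_right _ _ _ _ h1, List.getD_eq_getElem _ _ h4, List.getElem_map,
    List.length_replicate, List.getElem_range] at h3
  omega

/-- window of pairs -/
def zipw {τT A : Type} (sh : List τT → T) (h : List τT) (as : List A) : List (T × A) :=
  (h.tails.map sh).zip as

/-- window of the values of `av` at history `h` -/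
def asOf {τT A : Type} (k : ℕ) (av : List τT → A) (h : List τT) : List A :=
  (h.tails.map av).take k

theorem tails_hist {τT : Type} (s : ℕ → τT) (n : ℕ) :
    (hist s n).tails = (List.range (n + 1)).map (fun i => hist s (n - i)) := by
  induction n with
  | zero => rfl
  | succ n ih =>
    rw [List.range_succ_eq_map, List.map_cons, List.map_map]
    show (s n :: hist s n).tails = _
    rw [List.tails_cons, ih]
    congr 1
    apply List.map_congr_left
    intro i _
    simp only [Function.comp_apply]
    congr 1
    omega

theorem asOf_hist {τT A : Type} (k : ℕ) (av : List τT → A) (s : ℕ → τT) (n : ℕ) :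
    asOf k av (hist s n) = nwin k (fun i => av (hist s i)) n := by
  unfold asOf nwin
  rw [tails_hist, List.map_map, ← List.map_take, List.take_range, min_comm k]
  rfl

theorem zipw_hist {τT A : Type} (sh : List τT → T) (k : ℕ) (av : List τT → A) (s : ℕ → τT)
    (n : ℕ) :
    zipw sh (hist s n) (asOf k av (hist s n)) =
      nwin k (fun i => (sh (hist s i), av (hist s i))) n := by
  unfold zipw
  rw [asOf_hist, tails_hist, List.map_map]
  unfold nwin
  apply List.ext_getElem
  · simp
  · intro i h1 h2
    simp

theorem dummy_hist_length {τT : Type} (s : ℕ → τT) (n : ℕ) : (hist s n).length = n := by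
  induction n with
  | zero => rfl
  | succ n ih =>
    show (s n :: hist s n).length = n + 1
    rw [List.length_cons, ih]

theorem hist_inj {τT : Type} (s : ℕ → τT) : Function.Injective (hist s) := by
  intro m n h
  have := congrArg List.length h
  rwa [dummy_hist_length, dummy_hist_length] at this

end Pool.Agent.H72.TG
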