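import Pool.Agent.H72.TG.Bessel
import Pool.Agent.H72.TG.Cyl

/-!
# TG-13: a random reply hits only finitely many names with high probability (job)

PROOF. Let `ε = (η - 2 * 2^{-m}) / 3 > 0`. As `T` is countable there is a finite set `T0` of values
with `μ {rep ω ∉ T0} < ε` (e.g. enumerate `T`, the sets `{ω | encode (rep ω) ≥ n}` decrease to the
empty set; or `∑_t μ {rep = t} = 1`). For `t ∈ T0` let `q t` be the number of `cyl`; by `bessel`
(with `E = {rep = t}`, `δ = ε / (#T0 + 1)`) for all but finitely many `b`: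
`μ ({rep = t} ∩ G t b) < μ {rep = t} q t + ε / (#T0 + 1)`. So for all but finitely many `b` (finite
union over `T0`):
`μ {HitP (z ω b) (rep ω) m} ≤ μ {rep ∉ T0} + ∑_{t ∈ T0} μ ({rep = t} ∩ G t b)`
`< ε + ∑_{t ∈ T0} μ {rep = t} q t + ε ≤ 2 ε + 2 * 2^{-m} < η`.
-/

set_option autoImplicit false

open MeasureTheory

namespace Pool.Agent.H72.TG

theorem guess_T0 {Ω : Type} [MeasurableSpace Ω] [DiscreteMeasurableSpace Ω] (μ : Measure Ω)
    [IsProbabilityMeasure μ] (rep : Ω → T) {ε : ℝ} (hε : 0 < ε) :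
    ∃ T0 : Finset T, μ.real {ω | rep ω ∉ T0} < ε ∧ ∑ t ∈ T0, μ.real {ω | rep ω = t} ≤ 1 := by
  classical
  have hdisj : Pairwise (Function.onFun Disjoint fun t : T => {ω | rep ω = t}) := by
    intro t t' h
    rw [Function.onFun, Set.disjoint_left]
    intro ω h1 h2
    exact h (h1.symm.trans h2)
  have hU : (⋃ t : T, {ω | rep ω = t}) = Set.univ := by
    ext ω
    simp
  have h1 : ∑' t : T, μ {ω | rep ω = t} = 1 := by
    rw [← measure_iUnion hdisj fun t => MeasurableSet.of_discrete, hU, measure_univ]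
  have h2 : HasSum (fun t : T => μ.real {ω | rep ω = t}) 1 := by
    have h3 := ENNReal.hasSum_toReal (f := fun t : T => μ {ω | rep ω = t}) (by rw [h1]; exact ENNReal.one_ne_top)
    rw [← ENNReal.tsum_toReal_eq (fun t => measure_ne_top μ _), h1, ENNReal.toReal_one] at h3
    exact h3
  obtain ⟨T0, hT0⟩ : ∃ T0 : Finset T, dist (∑ t ∈ T0, μ.real {ω | rep ω = t}) 1 < ε := by
    have h3 := (Metric.tendsto_atTop.1 h2) ε hε
    obtain ⟨T0, h4⟩ := h3
    exact ⟨T0, h4 T0 le_rfl⟩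
  have h4 : μ.real (⋃ t ∈ T0, {ω | rep ω = t}) = ∑ t ∈ T0, μ.real {ω | rep ω = t} := by
    apply measureReal_biUnion_finset
    · intro t _ t' _ h
      exact hdisj h
    · intro t _
      exact MeasurableSet.of_discrete
    · intro t _
      exact measure_ne_top μ _
  have h5 : {ω | rep ω ∉ T0} = (⋃ t ∈ T0, {ω | rep ω = t})ᶜ := by
    ext ω
    simp
  have h6 : ∑ t ∈ T0, μ.real {ω | rep ω = t} ≤ 1 := by
    rw [← h4]
    exact measureReal_le_one
  refine ⟨T0, ?_, h6⟩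
  rw [h5, probReal_compl_eq_one_sub MeasurableSet.of_discrete, h4]
  rw [Real.dist_eq, abs_sub_lt_iff] at hT0
  linarith [hT0.2]

theorem guess_finite {Ω N : Type} [MeasurableSpace Ω] [DiscreteMeasurableSpace Ω] (μ : Measure Ω)
    [IsProbabilityMeasure μ] (z : Ω → N → ℕ → Bool)
    (coin1 : ∀ (b : N) (v : W), μ {ω | pre (z ω b) v.length = v} = (1 / 2) ^ v.length)
    (coin2 : ∀ (b b' : N) (v v' : W), b ≠ b' →
      μ {ω | pre (z ω b) v.length = v ∧ pre (z ω b') v'.length = v'} =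
        (1 / 2) ^ v.length * (1 / 2) ^ v'.length) (rep : Ω → T) (m : ℕ) (η : ℝ)
    (hη : 2 * (1 / 2) ^ m < η) :
    {b | η ≤ (μ {ω | HitP (z ω b) (rep ω) m}).toReal}.Finite := by
  classical
  obtain ⟨ε, hε, hεη⟩ : ∃ ε : ℝ, 0 < ε ∧ 2 * (1 / 2) ^ m + 3 * ε = η :=
    ⟨(η - 2 * (1 / 2) ^ m) / 3, by linarith, by ring⟩
  obtain ⟨T0, hT1, hT2⟩ := guess_T0 μ rep hε
  choose q hq0 hq1 hq2 hq3 using fun t : T => cyl μ z coin1 coin2 t m
  have hδ : 0 < ε / ((T0.card : ℝ) + 1) := by positivity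
  have hfin : ∀ t : T, {b | (μ {ω | rep ω = t}).toReal * q t + ε / ((T0.card : ℝ) + 1) ≤
      (μ ({ω | rep ω = t} ∩ {ω | HitP (z ω b) t m})).toReal}.Finite := fun t =>
    bessel μ (fun b => {ω | HitP (z ω b) t m}) (q t) (hq2 t) (hq3 t) {ω | rep ω = t} _ hδ
  refine (T0.finite_toSet.biUnion fun t _ => hfin t).subset fun b hb => ?_
  by_contra hcon
  simp only [Set.mem_iUnion, not_exists, Finset.mem_coe, Set.mem_ofPred_eq, not_le] at hcon
  have hb' : η ≤ μ.real {ω | HitP (z ω b) (rep ω) m} := hb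
  have h1 : {ω | HitP (z ω b) (rep ω) m} ⊆ {ω | rep ω ∉ T0} ∪
      ⋃ t ∈ T0, ({ω | rep ω = t} ∩ {ω | HitP (z ω b) t m}) := by
    intro ω hω
    by_cases h : rep ω ∈ T0
    · right
      exact Set.mem_biUnion h ⟨rfl, hω⟩
    · left
      exact h
  have h2 : μ.real {ω | HitP (z ω b) (rep ω) m} ≤ μ.real {ω | rep ω ∉ T0} +
      ∑ t ∈ T0, μ.real ({ω | rep ω = t} ∩ {ω | HitP (z ω b) t m}) :=
    (measureReal_mono h1).trans ((measureReal_union_le _ _).trans
      (add_le_add le_rfl (measureReal_biUnion_finset_le _ _)))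
  have h3 : ∑ t ∈ T0, μ.real ({ω | rep ω = t} ∩ {ω | HitP (z ω b) t m}) ≤
      ∑ t ∈ T0, (μ.real {ω | rep ω = t} * (2 * (1 / 2) ^ m) + ε / ((T0.card : ℝ) + 1)) := by
    refine Finset.sum_le_sum fun t ht => ?_
    have h4 := (hcon t ht).le
    have h5 : μ.real {ω | rep ω = t} * q t ≤ μ.real {ω | rep ω = t} * (2 * (1 / 2) ^ m) :=
      mul_le_mul_of_nonneg_left (hq1 t) measureReal_nonneg
    exact h4.trans (add_le_add h5 le_rfl)
  rw [Finset.sum_add_distrib, ← Finset.sum_mul, Finset.sum_const, nsmul_eq_mul] at h3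
  have h4 : (∑ t ∈ T0, μ.real {ω | rep ω = t}) * (2 * (1 / 2) ^ m) ≤ 1 * (2 * (1 / 2) ^ m) :=
    mul_le_mul_of_nonneg_right hT2 (by positivity)
  have h5 : (T0.card : ℝ) * (ε / ((T0.card : ℝ) + 1)) ≤ ε := by
    rw [mul_div_assoc', div_le_iff₀ (by positivity)]
    nlinarith
  linarith

end Pool.Agent.H72.TG
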