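import Pool.Agent.H72.TG.Defs

/-!
# Hypothesis (H)
-/

set_option autoImplicit false

open Cardinal Filter

namespace Pool.Agent.H72.TG

/-- Hypothesis (H): sets `B 0, B 1, …` of increasing infinite cardinalities `κ_0 = ℵ₀ < κ_1 < …`;
for every `i` a family `D i` of at most `κ_{i+1}` subsets of `B (i+1)` of size at most `κ_i`,
cofinal among all such subsets; for every `i` a proper filter `F i` on `D (i+1)` (a family of
subsets of `B (i+2)`), which contains all cones, is closed under intersections of `κ_i` members and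
satisfies the countable chain condition for positive sets; and a probability measure `m` defined
on all subsets of `Ω = {0,1}^(B × ℕ)`, `B` the disjoint union of the `B i`, which extends the fair
coin tossing measure and such that unions of `#B` null sets are null. -/
structure HypH where
  B : ℕ → Type
  B_zero : #(B 0) = ℵ₀
  B_lt : ∀ i, #(B i) < #(B (i + 1))
  D : ∀ i, Set (Set (B (i + 1)))
  D_card : ∀ i, #(D i) ≤ #(B (i + 1))
  D_small : ∀ i, ∀ y ∈ D i, #y ≤ #(B i)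
  D_cof : ∀ i, ∀ Q : Set (B (i + 1)), #Q ≤ #(B i) → ∃ y ∈ D i, Q ⊆ y
  F : ∀ i, Filter (D (i + 1))
  F_neBot : ∀ i, (F i).NeBot
  F_cone : ∀ i (y₀ : D (i + 1)), ∀ᶠ y : D (i + 1) in F i, (y₀ : Set (B (i + 2))) ⊆ y
  F_inter : ∀ i (Q : Set (Set (D (i + 1)))), #Q ≤ #(B i) → (∀ s ∈ Q, s ∈ F i) → ⋂₀ Q ∈ F i
  F_ccc : ∀ i (Q : Set (Set (D (i + 1)))), Q.PairwiseDisjoint id →
    (∀ s ∈ Q, ∃ᶠ y in F i, y ∈ s) → Q.Countable
  m : @MeasureTheory.Measure ((Σ i, B i) → ℕ → Bool) ⊤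
  m_coin : ∀ (C : Finset ((Σ i, B i) × ℕ)) (v : (Σ i, B i) × ℕ → Bool),
    m {x | ∀ c ∈ C, x c.1 c.2 = v c} = (1 / 2) ^ C.card
  m_add : ∀ E : (Σ i, B i) → Set ((Σ i, B i) → ℕ → Bool), (∀ b, m (E b) = 0) →
    m (⋃ b, E b) = 0

end Pool.Agent.H72.TG
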