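import Pool.Agent.H72.TG.Ulam

/-!
# TG-10: iterated filters (job)

`AK D k = D 0 × … × D (k-1)` (nested), `FK f k` the iterated filter, `memK mem k a` the union of the
sets of names `mem i (a i)`.

* `FK_neBot`, `FK_count`: induction on `k`; `Filter.curry` is `(∀ᶠ (a, b) in f.curry g, p) ↔
  ∀ᶠ a in f, ∀ᶠ b in g, p` (`Filter.eventually_curry_iff`, `Filter.mem_curry_iff`). For countable
  intersections (`CountableInterFilter`): if `S` is a countable set of members of `f.curry g`, then for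
  every `s ∈ S`, `∀ᶠ a in f, ∀ᶠ b in g, (a,b) ∈ s`; by `countable_sInter`/`eventually_countable_ball`
  `∀ᶠ a in f, ∀ s ∈ S, ∀ᶠ b in g, (a,b) ∈ s` and again for `b`.
* `FK_cone`: induction on `k`.
* `AK_card`: `#(AK D k) ≤ c` if all `#(D i) ≤ c` for `i < k`, `c` infinite (`Cardinal.mul_le_of_le`…).
* `FK_up`: let `m + 1 ≤ k`. If `#(L a) ≤ κ m` for all `a : AK D k` then
  `#{b | ∃ᶠ a in FK f k, b ∈ L a} ≤ κ (m+1)`. Induction on `k ≥ m + 1` (generalise `L`).
  Base `k = m+1`: the set is contained in `⋃ a, L a` (a frequently true statement is true somewhere)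
  and `#(AK D (m+1)) ≤ κ (m+1)` as `#(D i) ≤ κ (i+1) ≤ κ (m+1)` for `i ≤ m`; so the union has
  size `≤ κ (m+1) * κ m ≤ κ (m+1)`.
  Step `k → k+1` with `m + 1 ≤ k`: put `L' a = {b | ∃ᶠ y in f k, b ∈ L (a, y)}`; by `ulam` for the
  filter `f k` and `κ m` (as `m ≤ k - 1` closure under `κ (k-1)` intersections gives closure
  under `κ m` intersections; `κ` is monotone), `#(L' a) ≤ κ m`; and
  `{b | ∃ᶠ p in FK f (k+1), b ∈ L p} = {b | ∃ᶠ a in FK f k, b ∈ L' a}` (`frequently_curry_iff`).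
-/

set_option autoImplicit false

open Filter Cardinal

namespace Pool.Agent.H72.TG

/-- nested product `D 0 × … × D (k-1)` -/
def AK (D : ℕ → Type) : ℕ → Type
  | 0 => Unit
  | k + 1 => AK D k × D k

/-- union of the sets of names of the coordinates -/
def memK {D : ℕ → Type} {N : Type} (mem : ∀ i, D i → Set N) : ∀ k, AK D k → Set N
  | 0, _ => ∅
  | k + 1, p => memK mem k p.1 ∪ mem k p.2

/-- iterated filter, the last coordinate innermost -/
def FK {D : ℕ → Type} (f : ∀ i, Filter (D i)) : ∀ k, Filter (AK D k)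
  | 0 => (pure () : Filter Unit)
  | k + 1 => (FK f k).curry (f k)

theorem FK_neBot {D : ℕ → Type} (f : ∀ i, Filter (D i)) (hf : ∀ i, (f i).NeBot) (k : ℕ) :
    (FK f k).NeBot := by
  induction k with
  | zero => exact (inferInstance : (pure () : Filter Unit).NeBot)
  | succ k ih =>
    rw [← Filter.frequently_true_iff_neBot]
    change ∃ᶠ x in (FK f k).curry (f k), True
    rw [Filter.frequently_curry_iff]
    have := hf k
    rw [Filter.frequently_const, Filter.frequently_const]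
    trivial

theorem FK_count {D : ℕ → Type} (f : ∀ i, Filter (D i)) (hf : ∀ i, CountableInterFilter (f i))
    (k : ℕ) : CountableInterFilter (FK f k) := by
  induction k with
  | zero =>
    have : CountableInterFilter (pure () : Filter Unit) := by
      refine ⟨fun S _ hS => ?_⟩
      rw [Filter.mem_pure]
      intro s hs
      exact Filter.mem_pure.1 (hS s hs)
    exact this
  | succ k ih =>
    have := hf k
    exact (inferInstance : CountableInterFilter ((FK f k).curry (f k)))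

theorem FK_cone {D : ℕ → Type} {N : Type} (mem : ∀ i, D i → Set N) (f : ∀ i, Filter (D i))
    (hf : ∀ i y0, ∀ᶠ y in f i, mem i y0 ⊆ mem i y) (k : ℕ) (a0 : AK D k) :
    ∀ᶠ a in FK f k, memK mem k a0 ⊆ memK mem k a := by
  induction k with
  | zero => exact Filter.Eventually.of_forall fun a => Set.empty_subset _
  | succ k ih =>
    have : ∀ᶠ a in (FK f k).curry (f k), memK mem k a0.1 ∪ mem k a0.2 ⊆ memK mem k a.1 ∪ mem k a.2 := by
      rw [Filter.eventually_curry_iff]
      refine (ih a0.1).mono fun a ha => (hf k a0.2).mono fun y hy => ?_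
      exact Set.union_subset_union ha hy
    exact this

theorem AK_card {D : ℕ → Type} (c : Cardinal.{0}) (hc : ℵ₀ ≤ c) (k : ℕ)
    (hD : ∀ i < k, #(D i) ≤ c) : #(AK D k) ≤ c := by
  induction k with
  | zero =>
    change #Unit ≤ c
    rw [Cardinal.mk_unit]
    exact (Cardinal.one_le_aleph0).trans hc
  | succ k ih =>
    change #(AK D k × D k) ≤ c
    rw [Cardinal.mk_prod, Cardinal.lift_id, Cardinal.lift_id]
    exact (mul_le_mul' (ih fun i hi => hD i (by omega)) (hD k (by omega))).trans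
      (Cardinal.mul_eq_self hc).le

theorem FK_up {D : ℕ → Type} {N : Type} (f : ∀ i, Filter (D i)) (κ : ℕ → Cardinal.{0})
    (h0 : ℵ₀ ≤ κ 0) (hmono : Monotone κ) (hD : ∀ i, #(D i) ≤ κ (i + 1))
    (hc : ∀ i, ∀ S : Set (Set (D (i + 1))), #S ≤ κ i → (∀ s ∈ S, s ∈ f (i + 1)) →
      ⋂₀ S ∈ f (i + 1))
    (ccc : ∀ i, ∀ S : Set (Set (D (i + 1))), S.PairwiseDisjoint id →
      (∀ s ∈ S, ∃ᶠ y in f (i + 1), y ∈ s) → S.Countable)
    (k m : ℕ) (hm : m + 1 ≤ k) (L : AK D k → Set N) (hL : ∀ a, #(L a) ≤ κ m) :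
    #{b | ∃ᶠ a in FK f k, b ∈ L a} ≤ κ (m + 1) := by
  have hκ : ∀ i, ℵ₀ ≤ κ i := fun i => h0.trans (hmono (Nat.zero_le i))
  induction k, hm using Nat.le_induction with
  | base =>
    have hsub : {b | ∃ᶠ a in FK f (m + 1), b ∈ L a} ⊆ ⋃ a, L a := by
      intro b hb
      obtain ⟨a, ha⟩ := Filter.Frequently.exists hb
      exact Set.mem_iUnion.2 ⟨a, ha⟩
    have hAK : #(AK D (m + 1)) ≤ κ (m + 1) :=
      AK_card (κ (m + 1)) (hκ _) (m + 1) fun i hi => (hD i).trans (hmono (by omega))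
    calc #{b | ∃ᶠ a in FK f (m + 1), b ∈ L a} ≤ #(⋃ a, L a) := Cardinal.mk_le_mk_of_subset hsub
      _ ≤ #(AK D (m + 1)) * ⨆ a, #(L a) := Cardinal.mk_iUnion_le _
      _ ≤ κ (m + 1) * κ (m + 1) := by
        refine mul_le_mul' hAK ?_
        exact ciSup_le' fun a => (hL a).trans (hmono (by omega))
      _ = κ (m + 1) := Cardinal.mul_eq_self (hκ _)
  | succ k hk ih =>
    obtain ⟨j, rfl⟩ : ∃ j, k = j + 1 := ⟨k - 1, by omega⟩
    have hL' : ∀ a : AK D (j + 1), #{b | ∃ᶠ y in f (j + 1), b ∈ L (a, y)} ≤ κ m := by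
      intro a
      refine ulam (f (j + 1)) (κ m) (hκ m) (fun S hS hS' => hc j S (hS.trans (hmono (by omega))) hS')
        (ccc j) (fun y => L (a, y)) fun y => hL (a, y)
    have := ih (fun a => {b | ∃ᶠ y in f (j + 1), b ∈ L (a, y)}) hL'
    have heq : {b | ∃ᶠ a in FK f (j + 1 + 1), b ∈ L a} =
        {b | ∃ᶠ a in FK f (j + 1), b ∈ {b | ∃ᶠ y in f (j + 1), b ∈ L (a, y)}} := by
      ext b
      exact Filter.frequently_curry_iff (fun p => b ∈ L p)
    rw [heq]
    exact this

end Pool.Agent.H72.TG
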