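import Pool.Agent.H72.TG.Words

/-!
# TG-14: null sets (job)

`Add μ N`: a union of `#N` null sets is null.

* `Add.of_card`: if `#ι ≤ #N` there is an injection `ι → N`; extend the family by `∅`.
* `atoms`: the sets `{ω | g ω = a}` are pairwise disjoint, so only countably many have positive
  measure (`Measure.countable_meas_pos_of_disjoint_iUnion` or the version for finite measures); let
  `C` be the set of these `a`. `{ω | g ω ∉ C}` is the union over `a ∉ C` of the null sets
  `{ω | g ω = a}`.
* `ae_inj`: `{ω | z ω not injective}` is the union over the pairs `b ≠ b'` of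
  `{ω | z ω b = z ω b'}`, each null: for every `n` it is contained in the union over the `2^n` words
  `v` of length `n` of `{pre (z ω b) n = v ∧ pre (z ω b') n = v}`, of measure
  `2^n 2^{-2n} = 2^{-n}`. And `#(N × N) ≤ #N` for infinite `N` (`Cardinal.mul_eq_self`).
* `borel_cantelli`: `MeasureTheory.ae_finite_setOf_mem`.
-/

set_option autoImplicit false

open MeasureTheory Cardinal

namespace Pool.Agent.H72.TG

/-- a union of `#N` null sets is null -/
def Add {Ω : Type} [MeasurableSpace Ω] (μ : Measure Ω) (N : Type) : Prop :=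
  ∀ E : N → Set Ω, (∀ b, μ (E b) = 0) → μ (⋃ b, E b) = 0

theorem Add.of_card {Ω : Type} [MeasurableSpace Ω] {μ : Measure Ω} {N : Type} (h : Add μ N)
    {ι : Type} (hι : #ι ≤ #N) : Add μ ι := by
  classical
  obtain ⟨e⟩ := Cardinal.le_def ι N |>.1 hι
  intro E hE
  have h1 := h (fun b => ⋃ (i : ι) (_ : e i = b), E i) (fun b => by
    by_cases hb : ∃ i, e i = b
    · obtain ⟨i, rfl⟩ := hb
      refine measure_mono_null ?_ (hE i)
      intro ω hω
      obtain ⟨j, hj⟩ := Set.mem_iUnion.1 hω
      obtain ⟨hj1, hj2⟩ := Set.mem_iUnion.1 hj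
      rw [e.injective hj1] at hj2
      exact hj2
    · have : (⋃ (i : ι) (_ : e i = b), E i) = ∅ := by
        ext ω
        simp only [Set.mem_iUnion, Set.mem_empty_iff_false, iff_false]
        rintro ⟨i, hi, -⟩
        exact hb ⟨i, hi⟩
      rw [this]
      exact measure_empty)
  refine measure_mono_null ?_ h1
  intro ω hω
  obtain ⟨i, hi⟩ := Set.mem_iUnion.1 hω
  exact Set.mem_iUnion.2 ⟨e i, Set.mem_iUnion.2 ⟨i, Set.mem_iUnion.2 ⟨rfl, hi⟩⟩⟩

theorem atoms {Ω A : Type} [MeasurableSpace Ω] [DiscreteMeasurableSpace Ω] (μ : Measure Ω)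
    [IsProbabilityMeasure μ] (h : Add μ A) (g : Ω → A) :
    ∃ C : Set A, C.Countable ∧ μ {ω | g ω ∉ C} = 0 := by
  classical
  refine ⟨{a | 0 < μ {ω | g ω = a}}, ?_, ?_⟩
  · refine Measure.countable_meas_pos_of_disjoint_iUnion (μ := μ) (As := fun a => {ω | g ω = a})
      (fun a => MeasurableSet.of_discrete) ?_
    intro a b hab
    refine Set.disjoint_left.2 ?_
    intro ω h1 h2
    exact hab ((show g ω = a from h1).symm.trans h2)
  · have h1 := h (fun a => if 0 < μ {ω | g ω = a} then ∅ else {ω | g ω = a}) (fun a => by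
      by_cases ha : 0 < μ {ω | g ω = a}
      · rw [if_pos ha]
        exact measure_empty
      · rw [if_neg ha]
        exact le_antisymm (not_lt.1 ha) (zero_le))
    refine measure_mono_null ?_ h1
    intro ω hω
    refine Set.mem_iUnion.2 ⟨g ω, ?_⟩
    have hω' : ¬ 0 < μ {ω' | g ω' = g ω} := hω
    rw [if_neg hω']
    rfl

theorem ae_inj {Ω N : Type} [Infinite N] [MeasurableSpace Ω] [DiscreteMeasurableSpace Ω]
    (μ : Measure Ω) [IsProbabilityMeasure μ] (h : Add μ N) (z : Ω → N → ℕ → Bool)
    (coin2 : ∀ (b b' : N) (v v' : W), b ≠ b' →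
      μ {ω | pre (z ω b) v.length = v ∧ pre (z ω b') v'.length = v'} =
        (1 / 2) ^ v.length * (1 / 2) ^ v'.length) :
    μ {ω | ¬ Function.Injective (z ω)} = 0 := by
  classical
  have hpair : ∀ b b' : N, b ≠ b' → μ {ω | z ω b = z ω b'} = 0 := by
    intro b b' hb
    have hle : ∀ n : ℕ, μ {ω | z ω b = z ω b'} ≤ (1 / 2 : ENNReal) ^ n := by
      intro n
      have hsub : {ω | z ω b = z ω b'} ⊆ ⋃ v : Fin n → Bool,
          {ω | pre (z ω b) (List.ofFn v).length = List.ofFn v ∧
            pre (z ω b') (List.ofFn v).length = List.ofFn v} := by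
        intro ω hω
        have hω' : z ω b = z ω b' := hω
        refine Set.mem_iUnion.2 ⟨fun i => z ω b i, ?_⟩
        have hp : pre (z ω b) n = List.ofFn (fun i : Fin n => z ω b i) := by
          apply List.ext_getElem
          · rw [pre_length, List.length_ofFn]
          · intro i h1 h2
            rw [List.getElem_ofFn]
            simp [pre]
        have hl : (List.ofFn (fun i : Fin n => z ω b i)).length = n := List.length_ofFn
        refine ⟨?_, ?_⟩
        · rw [hl]; exact hp
        · rw [hl, ← hω']; exact hp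
      calc μ {ω | z ω b = z ω b'} ≤ μ (⋃ v : Fin n → Bool,
          {ω | pre (z ω b) (List.ofFn v).length = List.ofFn v ∧
            pre (z ω b') (List.ofFn v).length = List.ofFn v}) := measure_mono hsub
        _ ≤ ∑ v : Fin n → Bool, μ {ω | pre (z ω b) (List.ofFn v).length = List.ofFn v ∧
            pre (z ω b') (List.ofFn v).length = List.ofFn v} := measure_iUnion_fintype_le _ _
        _ = ∑ v : Fin n → Bool, (1 / 2 : ENNReal) ^ n * (1 / 2) ^ n := by
            refine Finset.sum_congr rfl fun v _ => ?_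
            rw [coin2 b b' _ _ hb, List.length_ofFn]
        _ = (1 / 2 : ENNReal) ^ n := by
            rw [Finset.sum_const, Finset.card_univ, nsmul_eq_mul]
            simp only [Fintype.card_fun, Fintype.card_bool, Fintype.card_fin]
            rw [← mul_assoc]
            have : ((2 ^ n : ℕ) : ENNReal) * (1 / 2) ^ n = 1 := by
              push_cast
              rw [← mul_pow, one_div, ENNReal.mul_inv_cancel (by norm_num) (by norm_num), one_pow]
            rw [this, one_mul]
    have ht : Filter.Tendsto (fun n : ℕ => (1 / 2 : ENNReal) ^ n) Filter.atTop (nhds 0) :=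
      ENNReal.tendsto_pow_atTop_nhds_zero_of_lt_one (by
        rw [one_div]
        exact ENNReal.inv_lt_one.2 (by norm_num))
    exact le_antisymm (ge_of_tendsto' ht hle) (zero_le)
  have hadd : Add μ (N × N) := h.of_card (by
    rw [Cardinal.mk_prod, Cardinal.lift_id, Cardinal.mul_eq_self (Cardinal.aleph0_le_mk N)])
  have h1 := hadd (fun p => if p.1 = p.2 then ∅ else {ω | z ω p.1 = z ω p.2}) (fun p => by
    by_cases hp : p.1 = p.2
    · rw [if_pos hp]
      exact measure_empty
    · rw [if_neg hp]
      exact hpair _ _ hp)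
  refine measure_mono_null ?_ h1
  intro ω hω
  have hω' : ¬ Function.Injective (z ω) := hω
  rw [Function.Injective] at hω'
  push Not at hω'
  obtain ⟨b, b', h2, h3⟩ := hω'
  refine Set.mem_iUnion.2 ⟨(b, b'), ?_⟩
  rw [if_neg h3]
  exact h2

theorem borel_cantelli {Ω H : Type} [Countable H] [MeasurableSpace Ω] [DiscreteMeasurableSpace Ω]
    (μ : Measure Ω) [IsProbabilityMeasure μ] (E : H → Set Ω) (η : H → ℝ) (hη : Summable η)
    (hE : ∀ h, (μ (E h)).toReal ≤ η h) : μ {ω | ¬ {h | ω ∈ E h}.Finite} = 0 := by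
  have hη0 : ∀ h, 0 ≤ η h := fun h => ENNReal.toReal_nonneg.trans (hE h)
  have hsum : ∑' h, μ (E h) ≠ ⊤ := by
    have h1 : ∀ h, μ (E h) ≤ ENNReal.ofReal (η h) := fun h => by
      rw [← ENNReal.ofReal_toReal (measure_ne_top μ (E h))]
      exact ENNReal.ofReal_le_ofReal (hE h)
    have h2 : ∑' h, ENNReal.ofReal (η h) ≠ ⊤ := by
      rw [← ENNReal.ofReal_tsum_of_nonneg hη0 hη]
      exact ENNReal.ofReal_ne_top
    exact ne_top_of_le_ne_top h2 (ENNReal.tsum_le_tsum h1)
  exact ae_finite_setOfPred_mem hsum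

end Pool.Agent.H72.TG
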