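import Pool.Agent.H72.TG.Words

/-!
# TG-4: the pipeline, codes (job)

Names are coded down one level per round: `rho a` maps the names of level `i` in `a` injectively
to names of level `i-1`; names of level `0` are coded by natural numbers (`enc`). For a list of
`A`s (newest first) `code as b` applies `rho` of the oldest entry first; `valid as b` says that at
each step the current code belongs to the current set.

* `code_lev`: induction on `as` with `rholev`.
* `code_inj`: induction on `as` (generalise nothing else): the codes of the tail are equal by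
  `rhoinj` (they have the same level by `code_lev`) and then use the induction hypothesis.
* `K_finite`: `Kf w` is a finite union of finite sets. For `Kd w`: for each level `l ≤ k` the map
  `b ↦ enc (code .. b)` is injective on the names of level `l` in `Kd w` (`code_inj`, `encinj`;
  the code has level `0` by `code_lev`) and has values in a finite set (`Set.Finite.of_injOn`).
* `M_finite`, `Cd_finite`: images of finite sets (for `Cd` a finite union over `j ≤ w.length`).
* `Cd_lev`: `code_lev`.
-/

set_option autoImplicit false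

namespace Pool.Agent.H72.TG

/-- coding data for the pipeline -/
structure Code (S : Sys) where
  rho : S.A → S.N → S.N
  rholev : ∀ a, ∀ b ∈ S.mem a, S.lev (rho a b) + 1 = S.lev b
  rhoinj : ∀ a, ∀ b ∈ S.mem a, ∀ b' ∈ S.mem a, S.lev b = S.lev b' → rho a b = rho a b' → b = b'
  enc : S.N → ℕ
  encinj : ∀ b b', S.lev b = 0 → S.lev b' = 0 → enc b = enc b' → b = b'

/-- the chosen fresh name of level `i` outside `a` -/
noncomputable def Sys.fr (S : Sys) (a : S.A) (i : ℕ) : S.N := by
  classical
  exact if h : 1 ≤ i ∧ i ≤ S.k then (S.fresh a i h.1 h.2).choose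
    else (S.fresh a 1 le_rfl S.hk).choose

theorem Sys.fr_spec (S : Sys) (a : S.A) (i : ℕ) (h1 : 1 ≤ i) (h2 : i ≤ S.k) :
    S.lev (S.fr a i) = i ∧ S.fr a i ∉ S.mem a := by
  have := (S.fresh a i h1 h2).choose_spec
  simpa [Sys.fr, h1, h2] using this

/-- a finite set of numbers as a word -/
def msgW (F : Finset ℕ) : W := List.replicate (Encodable.encode F) true

/-- decoding of `msgW` -/
def wMsg (w : W) : Finset ℕ := (Encodable.decode (α := Finset ℕ) w.length).getD ∅

theorem wMsg_msgW (F : Finset ℕ) : wMsg (msgW F) = F := by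
  simp [wMsg, msgW]

namespace Code

variable {S : Sys} (C : Code S)

/-- the code of `b` through the list (newest first) -/
def code : List S.A → S.N → S.N
  | [], b => b
  | a :: as, b => C.rho a (code as b)

/-- all intermediate codes belong to the corresponding sets -/
def valid : List S.A → S.N → Prop
  | [], _ => True
  | a :: as, b => valid as b ∧ C.code as b ∈ S.mem a

theorem code_lev (as : List S.A) (b : S.N) (h : C.valid as b) :
    S.lev (C.code as b) + as.length = S.lev b := by
  induction as with
  | nil => simp [code]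
  | cons a as ih =>
    have h1 := ih h.1
    have h2 := C.rholev a _ h.2
    show S.lev (C.rho a (C.code as b)) + (as.length + 1) = S.lev b
    omega

theorem code_inj (as : List S.A) (b b' : S.N) (h : C.valid as b) (h' : C.valid as b')
    (hl : S.lev b = S.lev b') (he : C.code as b = C.code as b') : b = b' := by
  induction as with
  | nil => exact he
  | cons a as ih =>
    refine ih h.1 h'.1 (C.rhoinj a _ h.2 _ h'.2 ?_ he)
    have h1 := C.code_lev as b h.1
    have h2 := C.code_lev as b' h'.1
    omega

/-- fresh names of the sets seen in the window -/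
def Kf (w : List (T × S.A)) : Set S.N :=
  {b | ∃ p ∈ w, ∃ i, 1 ≤ i ∧ i ≤ S.k ∧ S.fr p.2 i = b}

/-- names decoded from the message seen in the window -/
def Kd (w : List (T × S.A)) : Set S.N :=
  {b | ∃ p q rest, w = p :: q :: rest ∧ 1 ≤ S.lev b ∧ S.lev b ≤ S.k ∧
    S.lev b ≤ (q :: rest).length ∧
    C.valid (((q :: rest).take (S.lev b)).map Prod.snd) b ∧
    C.enc (C.code (((q :: rest).take (S.lev b)).map Prod.snd) b) ∈ wMsg (p.1.getD q.1.length [])}

/-- known names -/
def K (w : List (T × S.A)) : Set S.N := Kf w ∪ C.Kd w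

/-- the message to be sent -/
def M (w : List (T × S.A)) : Set ℕ :=
  {c | ∃ b ∈ C.K w, S.lev b ≤ w.length ∧ C.valid ((w.take (S.lev b)).map Prod.snd) b ∧
    C.enc (C.code ((w.take (S.lev b)).map Prod.snd) b) = c}

/-- the (partial) codes of known names, to be put into the next set -/
def Cd (w : List (T × S.A)) : Set S.N :=
  {c | ∃ b ∈ C.K w, ∃ j, j < S.lev b ∧ j ≤ w.length ∧
    C.valid ((w.take j).map Prod.snd) b ∧ C.code ((w.take j).map Prod.snd) b = c}

theorem K_lev (w : List (T × S.A)) : ∀ b ∈ C.K w, 1 ≤ S.lev b ∧ S.lev b ≤ S.k := by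
  rintro b (⟨p, -, i, h1, h2, rfl⟩ | ⟨p, q, rest, -, h1, h2, -⟩)
  · rw [(S.fr_spec p.2 i h1 h2).1]
    exact ⟨h1, h2⟩
  · exact ⟨h1, h2⟩

theorem PipeA_Kf_finite (w : List (T × S.A)) : (Kf (S := S) w).Finite := by
  refine Set.Finite.subset (Set.Finite.biUnion (List.finite_toSet w) (fun p _ =>
    (Set.finite_Iic S.k).image (fun i => S.fr p.2 i))) ?_
  rintro b ⟨p, hp, i, -, hi, rfl⟩
  exact Set.mem_biUnion (show p ∈ {x | x ∈ w} from hp) ⟨i, hi, rfl⟩

theorem PipeA_Kd_finite (w : List (T × S.A)) : (C.Kd w).Finite := by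
  match w with
  | [] =>
    refine Set.finite_empty.subset ?_
    rintro b ⟨p, q, rest, h, -⟩
    cases h
  | [_] =>
    refine Set.finite_empty.subset ?_
    rintro b ⟨p, q, rest, h, -⟩
    cases h
  | p :: q :: rest =>
    have hfin : ∀ l : ℕ, {b : S.N | S.lev b = l ∧ l ≤ (q :: rest).length ∧
        C.valid (((q :: rest).take l).map Prod.snd) b ∧
        C.enc (C.code (((q :: rest).take l).map Prod.snd) b) ∈
          wMsg (p.1.getD q.1.length [])}.Finite := by
      intro l
      refine Set.Finite.of_injOn
        (f := fun b => C.enc (C.code (((q :: rest).take l).map Prod.snd) b))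
        (t := (↑(wMsg (p.1.getD q.1.length [])) : Set ℕ)) ?_ ?_ (Finset.finite_toSet _)
      · rintro b ⟨-, -, -, h⟩
        exact h
      · rintro b ⟨h1, h2, h3, -⟩ b' ⟨h1', -, h3', -⟩ he
        have hlen : (((q :: rest).take l).map Prod.snd).length = l := by
          rw [List.length_map, List.length_take, Nat.min_eq_left h2]
        have e1 := C.code_lev _ b h3
        have e2 := C.code_lev _ b' h3'
        rw [hlen] at e1 e2
        refine C.code_inj _ b b' h3 h3' (h1.trans h1'.symm) (C.encinj _ _ ?_ ?_ he)
        · omega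
        · omega
    refine Set.Finite.subset (Set.Finite.biUnion (Set.finite_Iic S.k) (fun l _ => hfin l)) ?_
    rintro b ⟨p', q', rest', h, h1, h2, h3, h4, h5⟩
    simp only [List.cons.injEq] at h
    obtain ⟨rfl, rfl, rfl⟩ := h
    exact Set.mem_biUnion (show S.lev b ∈ Set.Iic S.k from h2) ⟨rfl, h3, h4, h5⟩

theorem K_finite (w : List (T × S.A)) : (C.K w).Finite := by
  refine Set.Finite.union (PipeA_Kf_finite w) (C.PipeA_Kd_finite w)

theorem M_finite (w : List (T × S.A)) : (C.M w).Finite := by
  refine ((C.K_finite w).image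
    (fun b => C.enc (C.code ((w.take (S.lev b)).map Prod.snd) b))).subset ?_
  rintro c ⟨b, hb, -, -, rfl⟩
  exact ⟨b, hb, rfl⟩

theorem Cd_finite (w : List (T × S.A)) : (C.Cd w).Finite := by
  refine Set.Finite.subset (Set.Finite.biUnion (Set.finite_Iic w.length) (fun j _ =>
    (C.K_finite w).image (fun b => C.code ((w.take j).map Prod.snd) b))) ?_
  rintro c ⟨b, hb, j, -, hj, -, rfl⟩
  exact Set.mem_biUnion (show j ∈ Set.Iic w.length from hj) ⟨b, hb, rfl⟩

theorem Cd_lev (w : List (T × S.A)) : ∀ c ∈ C.Cd w, 1 ≤ S.lev c ∧ S.lev c ≤ S.k := by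
  rintro c ⟨b, hb, j, hj, hjw, hv, rfl⟩
  have h1 := C.code_lev _ b hv
  have h2 := C.K_lev w b hb
  rw [List.length_map, List.length_take, Nat.min_eq_left hjw] at h1
  omega

theorem K_sub_Cd (w : List (T × S.A)) : C.K w ⊆ C.Cd w := by
  intro b hb
  exact ⟨b, hb, 0, (C.K_lev w b hb).1, Nat.zero_le _, trivial, rfl⟩

end Code

end Pool.Agent.H72.TG
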