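import Pool.Agent.H72.TG.Hyp
import Pool.Agent.H72.TG.IterF
import Pool.Agent.H72.TG.PipeA
import Pool.Agent.H72.TG.Null

/-!
# TG-16: from hypothesis (H) to the abstract data (job)

Names are the elements of `N = Σ i, B i`, `lev = Sigma.fst`; `D i` is coerced to a type, the set
`y ∈ D i` of elements of `B (i+1)` is viewed as the set `memD i y` of names of level `i+1`.
`A = AK (D 0, …, D (k-1))`, `mem = memK`. `kap i = #(B i)`.

* `memK_lev`, `memK_level`: the names of level `i+1` in `memK _ k a` are exactly `memD i` of the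
  coordinate `i` (induction on `k`); in particular for every `i < k` and `a` there is `y : D i` with
  `{c | ⟨i+1, c⟩ ∈ memK … k a} = y`, and for every choice of coordinates there is an `a` (`memK_mk`).
* `hyp_fresh`: `#y ≤ #(B i) < #(B (i+1))`, so some `c : B (i+1)` is not in `y`.
* `hyp_dir`, `hyp_fin`: coordinatewise: `y ∪ y' ∪ (finite)` has size `≤ #(B i)` (infinite), so it is
  contained in a member of `D i` (`D_cof`).
* `hyp_code`: for `y : D i` fix an injection `y → B i` (`D_small`), `rho a ⟨i+1, c⟩ = ⟨i, inj c⟩` for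
  `c ∈ y` (the coordinate `i` of `a`), arbitrary otherwise; `enc ⟨0, c⟩` by an injection
  `B 0 → ℕ` (`B_zero`).
* `cone0`: on `D 0` the filter generated by the cones `{y | y₀ ⊆ y}`; it is proper and countably
  complete because every countable subfamily of `D 0` has an upper bound (`D_cof`: a countable union
  of sets of size `≤ ℵ₀`). `ff H 0 = cone0 H`, `ff H (i+1) = H.F i`.
* `hyp_cov`: `Q ⊆ N`, `#Q ≤ #(B (k-1))`: the set of `c : B k` with `⟨k, c⟩ ∈ Q` is contained in some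
  `y ∈ D (k-1)`.
* `hyp_cardA`: `AK_card` with `c = #N` (`#(D i) ≤ #(B (i+1)) ≤ #N`).
* `m_prob`: `m_coin` with `C = ∅`. `m_coin1`, `m_coin2`: `m_coin` with
  `C = {(b, n) | n < v.length}` (and `∪ {(b', n) | n < v'.length}`), values `v.getD n false`;
  `pre (x b) v.length = v` iff `x b n = v.getD n false` for all `n < v.length`.
-/

set_option autoImplicit false

open Cardinal Filter

namespace Pool.Agent.H72.TG

namespace HypH

variable (H : HypH)

/-- names -/
abbrev N : Type := Σ i, H.B i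

/-- the families as types -/
abbrev Dt (i : ℕ) : Type := H.D i

/-- the names of level `i+1` in `y` -/
def memD (i : ℕ) (y : H.Dt i) : Set H.N := {b | ∃ c ∈ y.1, b = ⟨i + 1, c⟩}

/-- the cardinals -/
noncomputable def kap (i : ℕ) : Cardinal.{0} := #(H.B i)

theorem kap_mono : StrictMono H.kap := strictMono_nat_of_lt_succ H.B_lt

theorem kap_inf (i : ℕ) : ℵ₀ ≤ H.kap i := by
  have h0 : H.kap 0 = ℵ₀ := H.B_zero
  rw [← h0]
  exact H.kap_mono.monotone (Nat.zero_le i)

theorem memK_lev (k : ℕ) (a : AK H.Dt k) : ∀ b ∈ memK H.memD k a, 1 ≤ b.1 ∧ b.1 ≤ k := by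
  induction k with
  | zero => intro b hb; exact hb.elim
  | succ k ih =>
    intro b hb
    rcases hb with hb | hb
    · have := ih a.1 b hb
      omega
    · obtain ⟨c, _, rfl⟩ := hb
      simp

theorem memK_level (k i : ℕ) (hi : i < k) (a : AK H.Dt k) :
    ∃ y : H.Dt i, ∀ c : H.B (i + 1), (⟨i + 1, c⟩ : H.N) ∈ memK H.memD k a ↔ c ∈ y.1 := by
  induction k with
  | zero => omega
  | succ k ih =>
    rcases Nat.lt_succ_iff_lt_or_eq.1 hi with hi' | rfl
    · obtain ⟨y, hy⟩ := ih hi' a.1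
      refine ⟨y, fun c => ?_⟩
      rw [← hy c]
      constructor
      · rintro (h | h)
        · exact h
        · obtain ⟨c', _, h'⟩ := h
          have := congrArg Sigma.fst h'
          simp only at this
          omega
      · intro h; exact Or.inl h
    · refine ⟨a.2, fun c => ?_⟩
      constructor
      · rintro (h | h)
        · have := (H.memK_lev i a.1 _ h).2
          simp only at this
          omega
        · obtain ⟨c', hc', h'⟩ := h
          have := eq_of_heq (Sigma.mk.inj h').2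
          rw [this]; exact hc'
      · intro h; exact Or.inr ⟨c, h, rfl⟩

theorem inst_memK_mk (k : ℕ) (y : ∀ i, H.Dt i) : ∃ a : AK H.Dt k, ∀ b : H.N, b ∈ memK H.memD k a ↔
    ∃ i, i < k ∧ b ∈ H.memD i (y i) := by
  induction k with
  | zero =>
    refine ⟨(), fun b => ?_⟩
    constructor
    · intro h; exact h.elim
    · rintro ⟨i, hi, _⟩; omega
  | succ k ih =>
    obtain ⟨a, ha⟩ := ih
    refine ⟨(a, y k), fun b => ?_⟩
    constructor
    · rintro (h | h)
      · obtain ⟨i, hi, h'⟩ := (ha b).1 h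
        exact ⟨i, by omega, h'⟩
      · exact ⟨k, by omega, h⟩
    · rintro ⟨i, hi, h⟩
      rcases Nat.lt_succ_iff_lt_or_eq.1 hi with hi' | rfl
      · exact Or.inl ((ha b).2 ⟨i, hi', h⟩)
      · exact Or.inr h

theorem memK_mk (k : ℕ) (y : ∀ i, H.Dt i) : ∃ a : AK H.Dt k,
    ∀ i, i < k → ∀ c : H.B (i + 1), (⟨i + 1, c⟩ : H.N) ∈ memK H.memD k a ↔ c ∈ (y i).1 := by
  obtain ⟨a, ha⟩ := H.inst_memK_mk k y
  refine ⟨a, fun i hi c => ?_⟩
  rw [ha]
  constructor
  · rintro ⟨j, hj, c', hc', h'⟩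
    have h1 := congrArg Sigma.fst h'
    simp only at h1
    have h2 : i = j := by omega
    subst h2
    have := eq_of_heq (Sigma.mk.inj h').2
    rw [this]; exact hc'
  · intro h
    exact ⟨i, hi, c, h, rfl⟩

/-- Every set of names of levels `1..k` whose sections are small is contained in some `a`. -/
theorem inst_cover (k : ℕ) (Q : Set H.N) (hQ : ∀ i, i < k → #{c : H.B (i + 1) | (⟨i + 1, c⟩ : H.N) ∈ Q} ≤ #(H.B i))
    (hQ1 : ∀ b ∈ Q, 1 ≤ b.1 ∧ b.1 ≤ k) : ∃ a : AK H.Dt k, Q ⊆ memK H.memD k a := by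
  classical
  have h1 : ∀ i, ∃ y : H.Dt i, i < k → {c : H.B (i + 1) | (⟨i + 1, c⟩ : H.N) ∈ Q} ⊆ y.1 := by
    intro i
    by_cases hi : i < k
    · obtain ⟨y, hy, hy'⟩ := H.D_cof i _ (hQ i hi)
      exact ⟨⟨y, hy⟩, fun _ => hy'⟩
    · obtain ⟨y, hy, _⟩ := H.D_cof i ∅ (by simp)
      exact ⟨⟨y, hy⟩, fun h => (hi h).elim⟩
  choose y hy using h1
  obtain ⟨a, ha⟩ := H.memK_mk k y
  refine ⟨a, fun b hb => ?_⟩
  obtain ⟨j, c⟩ := b
  obtain ⟨h2, h3⟩ := hQ1 _ hb
  simp only at h2 h3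
  obtain ⟨i, rfl⟩ : ∃ i, j = i + 1 := ⟨j - 1, by omega⟩
  exact (ha i (by omega) c).2 (hy i (by omega) hb)

theorem inst_card_level (k i : ℕ) (hi : i < k) (a : AK H.Dt k) :
    #{c : H.B (i + 1) | (⟨i + 1, c⟩ : H.N) ∈ memK H.memD k a} ≤ #(H.B i) := by
  obtain ⟨y, hy⟩ := H.memK_level k i hi a
  have : {c : H.B (i + 1) | (⟨i + 1, c⟩ : H.N) ∈ memK H.memD k a} = y.1 := by
    ext c; exact hy c
  rw [this]
  exact H.D_small i _ y.2

theorem hyp_fresh (k : ℕ) (a : AK H.Dt k) (i : ℕ) (h1 : 1 ≤ i) (hi : i ≤ k) :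
    ∃ b : H.N, b.1 = i ∧ b ∉ memK H.memD k a := by
  obtain ⟨j, rfl⟩ : ∃ j, i = j + 1 := ⟨i - 1, by omega⟩
  have h2 := H.inst_card_level k j (by omega) a
  have h3 : ∃ c : H.B (j + 1), (⟨j + 1, c⟩ : H.N) ∉ memK H.memD k a := by
    by_contra hcon
    push Not at hcon
    have h4 : {c : H.B (j + 1) | (⟨j + 1, c⟩ : H.N) ∈ memK H.memD k a} = Set.univ := by
      ext c; simp [hcon c]
    rw [h4, mk_univ] at h2
    exact absurd h2 (not_le.2 (H.B_lt j))
  obtain ⟨c, hc⟩ := h3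
  exact ⟨⟨j + 1, c⟩, rfl, hc⟩

theorem hyp_fin (k : ℕ) (a a' : AK H.Dt k) (Q : Set H.N) (hQ : Q.Finite)
    (hQ1 : ∀ b ∈ Q, 1 ≤ b.1 ∧ b.1 ≤ k) :
    ∃ a'', memK H.memD k a ⊆ memK H.memD k a'' ∧ memK H.memD k a' ⊆ memK H.memD k a'' ∧
      Q ⊆ memK H.memD k a'' := by
  obtain ⟨a'', ha''⟩ := H.inst_cover k (memK H.memD k a ∪ memK H.memD k a' ∪ Q) (by
    intro i hi
    have hinf : ℵ₀ ≤ #(H.B i) := H.kap_inf i
    have h1 := H.inst_card_level k i hi a
    have h2 := H.inst_card_level k i hi a'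
    have h3 : #{c : H.B (i + 1) | (⟨i + 1, c⟩ : H.N) ∈ Q} ≤ #(H.B i) := by
      have : {c : H.B (i + 1) | (⟨i + 1, c⟩ : H.N) ∈ Q}.Finite :=
        hQ.preimage (fun x _ y _ h => eq_of_heq (Sigma.mk.inj h).2)
      exact (le_of_lt this.lt_aleph0).trans hinf
    have h4 : {c : H.B (i + 1) | (⟨i + 1, c⟩ : H.N) ∈ memK H.memD k a ∪ memK H.memD k a' ∪ Q} =
        {c | (⟨i + 1, c⟩ : H.N) ∈ memK H.memD k a} ∪ {c | (⟨i + 1, c⟩ : H.N) ∈ memK H.memD k a'} ∪
          {c | (⟨i + 1, c⟩ : H.N) ∈ Q} := by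
      ext c; rfl
    rw [h4]
    refine (mk_union_le _ _).trans ?_
    refine (add_le_add ((mk_union_le _ _).trans (add_le_add h1 h2)) h3).trans ?_
    rw [add_eq_self hinf, add_eq_self hinf]) (by
    rintro b ((hb | hb) | hb)
    · exact H.memK_lev k a b hb
    · exact H.memK_lev k a' b hb
    · exact hQ1 b hb)
  exact ⟨a'', fun b hb => ha'' (Or.inl (Or.inl hb)), fun b hb => ha'' (Or.inl (Or.inr hb)),
    fun b hb => ha'' (Or.inr hb)⟩

theorem hyp_ne (k : ℕ) : Nonempty (AK H.Dt k) := by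
  obtain ⟨a, _⟩ := H.inst_cover k ∅ (by intro i hi; simp) (by simp)
  exact ⟨a⟩

/-- the system of names -/
def sys (k : ℕ) (hk : 1 ≤ k) : Sys where
  k := k
  hk := hk
  N := H.N
  A := AK H.Dt k
  lev := Sigma.fst
  mem := memK H.memD k
  memlev := H.memK_lev k
  fresh := H.hyp_fresh k
  dir := fun a a' => by
    obtain ⟨a'', h1, h2, -⟩ := H.hyp_fin k a a' ∅ Set.finite_empty (by simp)
    exact ⟨a'', h1, h2⟩
  fin := fun a Q hQ hQ1 => by
    obtain ⟨a'', h1, -, h3⟩ := H.hyp_fin k a a Q hQ hQ1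
    exact ⟨a'', h1, h3⟩
  ne := H.hyp_ne k

theorem hyp_code (k : ℕ) (hk : 1 ≤ k) : Nonempty (Code (H.sys k hk)) := by
  classical
  have h1 : ∀ (a : AK H.Dt k) (i : ℕ), ∃ r : H.B (i + 1) → H.B i, i < k →
      Set.InjOn r {c : H.B (i + 1) | (⟨i + 1, c⟩ : H.N) ∈ memK H.memD k a} := by
    intro a i
    have hne : Nonempty (H.B i) := by
      rw [← mk_ne_zero_iff]
      intro h0
      have := H.kap_inf i
      rw [kap, h0] at this
      exact absurd this (not_le.2 aleph0_pos)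
    by_cases hi : i < k
    · have h2 := H.inst_card_level k i hi a
      obtain ⟨f⟩ := (Cardinal.le_def _ _).1 h2
      refine ⟨fun c => if h : (⟨i + 1, c⟩ : H.N) ∈ memK H.memD k a then f ⟨c, h⟩ else hne.some, fun _ => ?_⟩
      intro c hc c' hc' hcc
      have hc : (⟨i + 1, c⟩ : H.N) ∈ memK H.memD k a := hc
      have hc' : (⟨i + 1, c'⟩ : H.N) ∈ memK H.memD k a := hc'
      simp only [hc, hc', dif_pos] at hcc
      exact congrArg Subtype.val (f.injective hcc)
    · exact ⟨fun _ => hne.some, fun h => (hi h).elim⟩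
  choose r hr using h1
  obtain ⟨e⟩ : Nonempty (H.B 0 ↪ ℕ) := by
    rw [← Cardinal.lift_mk_le'.{0, 0}, Cardinal.lift_id, Cardinal.lift_id, H.B_zero, mk_nat]
  refine ⟨⟨fun a b => match b with
    | ⟨0, c⟩ => ⟨0, c⟩
    | ⟨i + 1, c⟩ => ⟨i, r a i c⟩, ?_, ?_, fun b => match b with
    | ⟨0, c⟩ => e c
    | ⟨i + 1, c⟩ => 0, ?_⟩⟩
  · rintro a ⟨j, c⟩ hb
    obtain ⟨h2, h3⟩ := H.memK_lev k a _ hb
    cases j with
    | zero => simp at h2
    | succ j => rfl
  · rintro a ⟨j, c⟩ hb ⟨j', c'⟩ hb' hl he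
    have hl : j = j' := hl
    subst hl
    obtain ⟨h2, h3⟩ := H.memK_lev k a _ hb
    cases j with
    | zero => simp at h2
    | succ j =>
      have h4 := eq_of_heq (Sigma.mk.inj he).2
      have h5 := hr a j (by simpa using h3) hb hb' h4
      rw [h5]
  · rintro ⟨j, c⟩ ⟨j', c'⟩ hl hl' he
    have hl : j = 0 := hl
    have hl' : j' = 0 := hl'
    subst hl hl'
    exact congrArg _ (e.injective he)

/-- the cone filter on `D 0` -/
theorem exists_cone0 : ∃ f : Filter (H.Dt 0), f.NeBot ∧ CountableInterFilter f ∧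
    ∀ y₀ : H.Dt 0, ∀ᶠ y : H.Dt 0 in f, y₀.1 ⊆ y.1 := by
  classical
  have hup : ∀ (S : Set (Set (H.B 1))), S.Countable → (∀ y ∈ S, y ∈ H.D 0) →
      ∃ y₁ : H.Dt 0, ∀ y ∈ S, y ⊆ y₁.1 := by
    intro S hS hS'
    have h1 : (⋃₀ S).Countable := by
      refine hS.sUnion fun y hy => ?_
      have h2 := H.D_small 0 y (hS' y hy)
      rw [H.B_zero] at h2
      exact Cardinal.le_aleph0_iff_set_countable.1 h2
    have h2 : #(⋃₀ S : Set (H.B 1)) ≤ #(H.B 0) := by
      rw [H.B_zero]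
      exact Cardinal.le_aleph0_iff_set_countable.2 h1
    obtain ⟨y₁, hy₁, h3⟩ := H.D_cof 0 _ h2
    exact ⟨⟨y₁, hy₁⟩, fun y hy => (Set.subset_sUnion_of_mem hy).trans h3⟩
  let l : Set (Set (H.Dt 0)) := {s | ∃ y₀ : H.Dt 0, {y : H.Dt 0 | y₀.1 ⊆ y.1} ⊆ s}
  have hl : ∀ S : Set (Set (H.Dt 0)), S.Countable → S ⊆ l → ⋂₀ S ∈ l := by
    intro S hS hSl
    have hc : ∀ s : Set (H.Dt 0), ∃ y₀ : Set (H.B 1), s ∈ l → (y₀ ∈ H.D 0 ∧
        ∀ y : H.Dt 0, y₀ ⊆ y.1 → y ∈ s) := by
      intro s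
      by_cases hs : s ∈ l
      · obtain ⟨y₀, hy₀⟩ := hs
        exact ⟨y₀.1, fun _ => ⟨y₀.2, fun y hy => hy₀ hy⟩⟩
      · exact ⟨∅, fun h => absurd h hs⟩
    choose g hg using hc
    obtain ⟨y₁, hy₁⟩ := hup (g '' S) (hS.image _) (by
      rintro _ ⟨s, hs, rfl⟩
      exact (hg s (hSl hs)).1)
    refine ⟨y₁, fun y hy => ?_⟩
    rw [Set.mem_sInter]
    intro s hs
    exact (hg s (hSl hs)).2 y ((hy₁ _ ⟨s, hs, rfl⟩).trans hy)
  have hm : ∀ s t : Set (H.Dt 0), s ∈ l → s ⊆ t → t ∈ l := by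
    rintro s t ⟨y₀, hy₀⟩ hst
    exact ⟨y₀, hy₀.trans hst⟩
  refine ⟨Filter.ofCountableInter l hl hm, ?_, inferInstance, fun y₀ => ?_⟩
  · rw [← Filter.forall_mem_nonempty_iff_neBot]
    rintro s ⟨y₀, hy₀⟩
    exact ⟨y₀, hy₀ (Set.Subset.refl _)⟩
  · exact ⟨y₀, fun y hy => hy⟩

/-- the filters on all `D i` -/
noncomputable def ff : ∀ i, Filter (H.Dt i)
  | 0 => H.exists_cone0.choose
  | i + 1 => H.F i

theorem ff_neBot (i : ℕ) : (H.ff i).NeBot := by
  cases i with
  | zero => exact H.exists_cone0.choose_spec.1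
  | succ i => exact H.F_neBot i

theorem ff_count (i : ℕ) : CountableInterFilter (H.ff i) := by
  cases i with
  | zero => exact H.exists_cone0.choose_spec.2.1
  | succ i =>
    exact ⟨fun S hS hS' => H.F_inter i S (hS.le_aleph0.trans (H.kap_inf i)) hS'⟩

theorem ff_cone (i : ℕ) (y₀ : H.Dt i) : ∀ᶠ y in H.ff i, H.memD i y₀ ⊆ H.memD i y := by
  have hmono : ∀ (i : ℕ) (y₀ y : H.Dt i), y₀.1 ⊆ y.1 → H.memD i y₀ ⊆ H.memD i y := by
    rintro i y₀ y h b ⟨c, hc, rfl⟩
    exact ⟨c, h hc, rfl⟩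
  cases i with
  | zero =>
    filter_upwards [H.exists_cone0.choose_spec.2.2 y₀] with y hy
    exact hmono 0 y₀ y hy
  | succ i =>
    filter_upwards [H.F_cone i y₀] with y hy
    exact hmono (i + 1) y₀ y hy

theorem hyp_cov (k : ℕ) (hk : 1 ≤ k) (Q : Set H.N) (hQ : #Q ≤ H.kap (k - 1)) :
    ∃ a0 : AK H.Dt k, Q ∩ {b | b.1 = k} ⊆ memK H.memD k a0 := by
  refine H.inst_cover k (Q ∩ {b | b.1 = k}) ?_ ?_
  · intro i hi
    by_cases hik : i + 1 = k
    · subst hik
      refine le_trans ?_ hQ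
      refine Cardinal.mk_le_of_injective (f := fun c => ⟨(⟨i + 1, c.1⟩ : H.N), c.2.1⟩) ?_
      intro c c' h
      have h1 := congrArg Subtype.val h
      exact Subtype.ext (eq_of_heq (Sigma.mk.inj h1).2)
    · have : {c : H.B (i + 1) | (⟨i + 1, c⟩ : H.N) ∈ Q ∩ {b | b.1 = k}} = ∅ := by
        ext c
        simp only [Set.mem_setOf_eq, Set.mem_empty_iff_false, iff_false]
        rintro ⟨_, h⟩
        exact hik h
      rw [this]; simp
  · rintro b ⟨_, hb⟩
    have hb : b.1 = k := hb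
    omega

theorem inst_B_le (i : ℕ) : #(H.B i) ≤ #H.N :=
  Cardinal.mk_le_of_injective (f := fun c => (⟨i, c⟩ : H.N)) (fun _ _ h => eq_of_heq (Sigma.mk.inj h).2)

theorem hyp_cardA (k : ℕ) : #(AK H.Dt k) ≤ #H.N :=
  AK_card #H.N ((H.kap_inf 0).trans (H.inst_B_le 0)) k (fun i _ => (H.D_card i).trans (H.inst_B_le (i + 1)))

instance : Infinite H.N := by
  rw [Cardinal.infinite_iff]
  exact (H.kap_inf 0).trans (H.inst_B_le 0)

theorem m_univ : H.m Set.univ = 1 := by
  have := H.m_coin ∅ (fun _ => true)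
  simpa using this

theorem pre_eq_iff (z : ℕ → Bool) (v : W) : pre z v.length = v ↔ ∀ n, n < v.length → z n = v.getD n false := by
  constructor
  · intro h n hn
    have h1 : (pre z v.length).getD n false = v.getD n false := by rw [h]
    rw [← h1]
    unfold pre
    rw [List.getD_eq_getElem _ _ (by simpa using hn)]
    simp
  · intro h
    refine List.ext_getElem (by simp [pre]) fun n h1 h2 => ?_
    rw [← List.getD_eq_getElem _ false h2, ← h n h2]
    simp [pre]

theorem m_coin1 (b : H.N) (v : W) : H.m {x | pre (x b) v.length = v} = (1 / 2) ^ v.length := by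
  classical
  have h := H.m_coin ((Finset.range v.length).image fun n => (b, n)) (fun c => v.getD c.2 false)
  rw [Finset.card_image_of_injective _ (Prod.mk_right_injective b), Finset.card_range] at h
  rw [← h]
  congr 1
  ext x
  rw [Set.mem_setOf_eq, pre_eq_iff, Set.mem_setOf_eq]
  constructor
  · intro h1 c hc
    obtain ⟨n, hn, rfl⟩ := Finset.mem_image.1 hc
    exact h1 n (Finset.mem_range.1 hn)
  · intro h1 n hn
    exact h1 (b, n) (Finset.mem_image.2 ⟨n, Finset.mem_range.2 hn, rfl⟩)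

theorem m_coin2 (b b' : H.N) (v v' : W) (hb : b ≠ b') :
    H.m {x | pre (x b) v.length = v ∧ pre (x b') v'.length = v'} =
      (1 / 2) ^ v.length * (1 / 2) ^ v'.length := by
  classical
  have h := H.m_coin ((Finset.range v.length).image (fun n => (b, n)) ∪
    (Finset.range v'.length).image (fun n => (b', n)))
    (fun c => if c.1 = b then v.getD c.2 false else v'.getD c.2 false)
  have hd : Disjoint ((Finset.range v.length).image (fun n => (b, n)))
      ((Finset.range v'.length).image (fun n => (b', n))) := by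
    rw [Finset.disjoint_left]
    intro c hc hc'
    obtain ⟨n, -, rfl⟩ := Finset.mem_image.1 hc
    obtain ⟨m, -, hm⟩ := Finset.mem_image.1 hc'
    exact hb (congrArg Prod.fst hm).symm
  rw [Finset.card_union_of_disjoint hd, Finset.card_image_of_injective _ (Prod.mk_right_injective b),
    Finset.card_image_of_injective _ (Prod.mk_right_injective b'), Finset.card_range, Finset.card_range,
    pow_add] at h
  rw [← h]
  congr 1
  ext x
  rw [Set.mem_setOf_eq, pre_eq_iff, pre_eq_iff, Set.mem_setOf_eq]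
  constructor
  · rintro ⟨h1, h2⟩ c hc
    rcases Finset.mem_union.1 hc with hc | hc
    · obtain ⟨n, hn, rfl⟩ := Finset.mem_image.1 hc
      rw [if_pos rfl]
      exact h1 n (Finset.mem_range.1 hn)
    · obtain ⟨n, hn, rfl⟩ := Finset.mem_image.1 hc
      rw [if_neg (fun h => hb h.symm)]
      exact h2 n (Finset.mem_range.1 hn)
  · intro h1
    constructor
    · intro n hn
      have h2 := h1 (b, n) (Finset.mem_union_left _ (Finset.mem_image.2 ⟨n, Finset.mem_range.2 hn, rfl⟩))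
      rwa [if_pos rfl] at h2
    · intro n hn
      have h2 := h1 (b', n) (Finset.mem_union_right _ (Finset.mem_image.2 ⟨n, Finset.mem_range.2 hn, rfl⟩))
      rwa [if_neg (fun h => hb h.symm)] at h2

end HypH

end Pool.Agent.H72.TG
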