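import Pool.Agent.H72.TG.Words

/-!
# TG-2: the space (job)

Facts on the sets `S.U x s a` and the topology `S.top x` (see `Defs.lean`).

* `U_nonempty`: choose by `S.fresh` a name of each level `1..k` outside `a` and apply
  `exists_capt` (with `m = k`, `b j` = the name of level `j+1`).
* `U_incl`: suppose `U(s',a') ⊆ U(t,a'')`. (i) `mem a'' ⊆ mem a'`: let `b ∈ mem a''` be outside
  `mem a'`, `i = lev b` (`memlev`). Apply `exists_capt` to the names `b` (for level `i`) and a
  fresh name outside `a'` for every other level. The resulting `r` is in `U(s',a')`, hence in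
  `U(t,a'')`, so it captures a name `b'` of level `i` outside `mem a''`; but the only captured
  name of level `i` is `b`: contradiction.
  (ii) `t <+: s'`: `U(s',a')` contains some `r` (`U_nonempty`), it extends both `s'` and `t`. If
  `t.length ≤ s'.length` use `prefix_of_ext`. Otherwise `s'.length < t.length`; choose a word
  `w ≠ t.getD s'.length []` and by `exists_capt` an `r ∈ U(s',a')` with `r s'.length = w`; it
  does not extend `t`: contradiction.
* `exists_U_sub`: the topology is generated by the cylinders `[s]` and the sets `U(s,a)`; every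
  nonempty open set contains a nonempty finite intersection `B` of generators
  (`TopologicalSpace.isTopologicalBasis_of_subbasis`). Take `r ∈ B` and let `s` be an initial
  segment of `r` that is longer than all the (finitely many) sequences occurring in the
  generators, and `a` an upper bound of the `a`'s that occur (`S.dir`, `S.ne`); then
  `U(s,a) ⊆ B`. (Induction over the finite intersection works well: claim: for every finite
  family of generators containing `r` there are `n` and `a` such that `U(s,a) ⊆` intersection for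
  every `s` with `Ext s r` and `n ≤ s.length`.)
* `top_t2`: two different points differ at some `n`; the cylinders of their initial segments of
  length `n+1` are disjoint open sets.
-/

set_option autoImplicit false

namespace Pool.Agent.H72.TG

/-- the initial segment of `r` of length `n` -/
def space_seg (r : ℕ → W) (n : ℕ) : T := (List.range n).map r

theorem space_seg_length (r : ℕ → W) (n : ℕ) : (space_seg r n).length = n := by
  simp [space_seg]

theorem space_seg_getD (r : ℕ → W) {n i : ℕ} (h : i < n) : (space_seg r n).getD i [] = r i := by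
  rw [List.getD_eq_getElem _ _ (by rw [space_seg_length]; exact h)]
  simp [space_seg]

theorem space_seg_ext (r : ℕ → W) (n : ℕ) : Ext (space_seg r n) r := by
  intro i hi
  rw [space_seg_length] at hi
  exact space_seg_getD r hi

namespace Sys

variable (S : Sys) (x : S.N → ℕ → Bool)

theorem space_names (a : S.A) : ∃ c : ℕ → S.N, ∀ i, 1 ≤ i → i ≤ S.k → S.lev (c i) = i ∧ c i ∉ S.mem a := by
  have h : ∀ i, ∃ b, 1 ≤ i → i ≤ S.k → S.lev b = i ∧ b ∉ S.mem a := by
    intro i
    by_cases h1 : 1 ≤ i ∧ i ≤ S.k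
    · obtain ⟨b, hb⟩ := S.fresh a i h1.1 h1.2
      exact ⟨b, fun _ _ => hb⟩
    · obtain ⟨b, _⟩ := S.fresh a 1 le_rfl S.hk
      exact ⟨b, fun h2 h3 => absurd ⟨h2, h3⟩ h1⟩
  choose c hc using h
  exact ⟨c, hc⟩

theorem space_capt (hx : Function.Injective x) (s : T) (w : W) (a : S.A) (c : ℕ → S.N)
    (hc : ∀ i, 1 ≤ i → i ≤ S.k → S.lev (c i) = i ∧ c i ∉ S.mem a) :
    ∃ r ∈ S.U x s a, r s.length = w ∧ ∀ b', Cap (x b') r ↔ ∃ i, 1 ≤ i ∧ i ≤ S.k ∧ c i = b' := by
  obtain ⟨r, h1, h2, h3⟩ := exists_capt x hx s w S.k (by have := S.hk; omega) (fun j => c (j + 1))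
  have h4 : ∀ b', Cap (x b') r ↔ ∃ i, 1 ≤ i ∧ i ≤ S.k ∧ c i = b' := by
    intro b'
    rw [h3]
    constructor
    · rintro ⟨j, hj, h5⟩
      exact ⟨j + 1, by omega, by omega, h5⟩
    · rintro ⟨i, hi1, hi2, h5⟩
      refine ⟨i - 1, by omega, ?_⟩
      have h6 : i - 1 + 1 = i := by omega
      show c (i - 1 + 1) = b'
      rw [h6]; exact h5
  refine ⟨r, ⟨h1, ?_⟩, h2, h4⟩
  intro i hi1 hi2
  exact ⟨c i, (hc i hi1 hi2).1, (hc i hi1 hi2).2, (h4 _).2 ⟨i, hi1, hi2, rfl⟩⟩

theorem U_nonempty (hx : Function.Injective x) (s : T) (a : S.A) : (S.U x s a).Nonempty := by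
  obtain ⟨c, hc⟩ := S.space_names a
  obtain ⟨r, hr, _⟩ := S.space_capt x hx s [] a c hc
  exact ⟨r, hr⟩

theorem U_incl (hx : Function.Injective x) {s' t : T} {a' a'' : S.A}
    (h : S.U x s' a' ⊆ S.U x t a'') : t <+: s' ∧ S.mem a'' ⊆ S.mem a' := by
  classical
  obtain ⟨c, hc⟩ := S.space_names a'
  constructor
  · by_cases hl : t.length ≤ s'.length
    · obtain ⟨r, hr, _⟩ := S.space_capt x hx s' [] a' c hc
      exact prefix_of_ext (h hr).1 hr.1 hl
    · exfalso
      obtain ⟨r, hr, h1, _⟩ := S.space_capt x hx s' (true :: t.getD s'.length []) a' c hc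
      have h2 := (h hr).1 s'.length (by omega)
      rw [h1] at h2
      have h3 := congrArg List.length h2
      rw [List.length_cons] at h3
      omega
  · intro b hb
    by_contra hba
    have hlev := S.memlev a'' b hb
    have hc' : ∀ i, 1 ≤ i → i ≤ S.k → S.lev (Function.update c (S.lev b) b i) = i ∧
        Function.update c (S.lev b) b i ∉ S.mem a' := by
      intro i hi1 hi2
      by_cases hi : i = S.lev b
      · subst hi
        rw [Function.update_self]
        exact ⟨rfl, hba⟩
      · rw [Function.update_of_ne hi]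
        exact hc i hi1 hi2
    obtain ⟨r, hr, _, h1⟩ := S.space_capt x hx s' [] a' _ hc'
    obtain ⟨b', h2, h3, h4⟩ := (h hr).2 (S.lev b) hlev.1 hlev.2
    obtain ⟨i, hi1, hi2, h5⟩ := (h1 b').1 h4
    have h6 := (hc' i hi1 hi2).1
    rw [h5, h2] at h6
    rw [← h6, Function.update_self] at h5
    exact h3 (h5 ▸ hb)

theorem U_mono {s' t : T} {a' a'' : S.A} (h1 : t <+: s') (h2 : S.mem a'' ⊆ S.mem a') :
    S.U x s' a' ⊆ S.U x t a'' := by
  rintro r ⟨h3, h4⟩
  refine ⟨ext_of_prefix h1 h3, ?_⟩
  intro i hi1 hi2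
  obtain ⟨b, h5, h6, h7⟩ := h4 i hi1 hi2
  exact ⟨b, h5, fun h8 => h6 (h2 h8), h7⟩

theorem U_open (s : T) (a : S.A) : @IsOpen _ (S.top x) (S.U x s a) :=
  TopologicalSpace.isOpen_generateFrom_of_mem (Or.inr ⟨s, a, rfl⟩)

theorem space_cyl_open (s : T) : @IsOpen _ (S.top x) {r | Ext s r} :=
  TopologicalSpace.isOpen_generateFrom_of_mem (Or.inl ⟨s, rfl⟩)

theorem space_fin (r : ℕ → W) {f : Set (Set (ℕ → W))} (hf : f.Finite)
    (hsub : f ⊆ ({O | ∃ s : T, O = {r | Ext s r}} ∪ {O | ∃ (s : T) (a : S.A), O = S.U x s a}))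
    (hr : ∀ O ∈ f, r ∈ O) :
    ∃ (n : ℕ) (a : S.A), ∀ s : T, Ext s r → n ≤ s.length → ∀ O ∈ f, S.U x s a ⊆ O := by
  induction f, hf using Set.Finite.induction_on with
  | empty =>
    obtain ⟨a⟩ := S.ne
    exact ⟨0, a, fun s _ _ O hO => absurd hO (Set.notMem_empty O)⟩
  | insert _ _ ih =>
    rename_i O' f' _ _
    obtain ⟨n, a, h1⟩ := ih (fun O hO => hsub (Set.mem_insert_of_mem _ hO))
      (fun O hO => hr O (Set.mem_insert_of_mem _ hO))
    have hrO := hr O' (Set.mem_insert _ _)
    rcases hsub (Set.mem_insert _ _) with ⟨t, ht⟩ | ⟨t, a1, ht⟩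
    · refine ⟨max n t.length, a, ?_⟩
      intro s hs hl O hO
      rcases Set.mem_insert_iff.1 hO with hO | hO
      · rw [hO, ht]
        intro r' hr'
        rw [ht] at hrO
        exact ext_of_prefix (prefix_of_ext hrO hs (le_trans (le_max_right _ _) hl)) hr'.1
      · exact h1 s hs (le_trans (le_max_left _ _) hl) O hO
    · obtain ⟨a2, h2, h3⟩ := S.dir a a1
      refine ⟨max n t.length, a2, ?_⟩
      intro s hs hl O hO
      rcases Set.mem_insert_iff.1 hO with hO | hO
      · rw [hO, ht]
        rw [ht] at hrO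
        exact S.U_mono x (prefix_of_ext hrO.1 hs (le_trans (le_max_right _ _) hl)) h3
      · exact (S.U_mono x (List.prefix_rfl) h2).trans
          (h1 s hs (le_trans (le_max_left _ _) hl) O hO)

theorem exists_U_sub {O : Set (ℕ → W)} (hO : @IsOpen _ (S.top x) O) (hne : O.Nonempty) :
    ∃ s a, S.U x s a ⊆ O := by
  obtain ⟨r, hr⟩ := hne
  letI := S.top x
  have hb := TopologicalSpace.isTopologicalBasis_of_subbasis (t := S.top x) (rfl : S.top x = _)
  obtain ⟨v, hv, hrv, hvO⟩ := hb.exists_subset_of_mem_open hr hO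
  obtain ⟨f, ⟨hf, hfs⟩, rfl⟩ := hv
  obtain ⟨n, a, h1⟩ := S.space_fin x r hf hfs (fun O' hO' => hrv O' hO')
  refine ⟨space_seg r n, a, ?_⟩
  refine Set.Subset.trans ?_ hvO
  intro r' hr' O' hO'
  exact h1 _ (space_seg_ext r n) (by rw [space_seg_length]) O' hO' hr'

theorem top_t2 : @T2Space _ (S.top x) := by
  refine @T2Space.mk _ (S.top x) ?_
  intro r r' hne
  have h1 : ∃ n, r n ≠ r' n := by
    by_contra h
    push Not at h
    exact hne (funext h)
  obtain ⟨n, hn⟩ := h1
  refine ⟨{q | Ext (space_seg r (n + 1)) q}, {q | Ext (space_seg r' (n + 1)) q},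
    S.space_cyl_open x _, S.space_cyl_open x _, space_seg_ext r _, space_seg_ext r' _, ?_⟩
  rw [Set.disjoint_left]
  intro q h2 h3
  have h4 := h2 n (by rw [space_seg_length]; omega)
  have h5 := h3 n (by rw [space_seg_length]; omega)
  rw [space_seg_getD r (by omega)] at h4
  rw [space_seg_getD r' (by omega)] at h5
  exact hn (h4.trans h5.symm)

end Sys

end Pool.Agent.H72.TG
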