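import Pool.Agent.H72.TG.Guess
import Pool.Agent.H72.TG.Null
import Pool.Agent.H72.TG.Dummy
import Pool.Agent.H72.TG.Space

/-!
# No winning `k`-tactic
-/

set_option autoImplicit false

open MeasureTheory Cardinal Filter

namespace Pool.Agent.H72.TG

theorem exists_ub {S : Sys} (f : Filter S.A) [f.NeBot] [CountableInterFilter f]
    (cone : ∀ a0, ∀ᶠ a in f, S.mem a0 ⊆ S.mem a) (C : Set S.A) (hC : C.Countable) :
    ∃ a, ∀ c ∈ C, S.mem c ⊆ S.mem a := by
  have : ∀ᶠ a in f, ∀ c ∈ C, S.mem c ⊆ S.mem a :=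
    (eventually_countable_ball hC).2 (fun c _ => cone c)
  exact this.exists

/-- the play along the tactic: histories -/
def play {τT : Type} (next : List τT → τT) : ℕ → List τT
  | 0 => []
  | n + 1 => next (play next n) :: play next n

theorem play_hist {τT : Type} (next : List τT → τT) (n : ℕ) :
    hist (fun i => next (play next i)) n = play next n := by
  induction n with
  | zero => rfl
  | succ n ih => simp [hist, play, ih]

theorem no_tactic (S : Sys) [Infinite S.N] (f : Filter S.A) [f.NeBot] [CountableInterFilter f]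
    (cone : ∀ a0, ∀ᶠ a in f, S.mem a0 ⊆ S.mem a)
    (κ : ℕ → Cardinal) (hκ : ℵ₀ ≤ κ 0)
    (hup : ∀ m, m + 1 < S.k → ∀ L : S.A → Set S.N, (∀ a, #(L a) ≤ κ m) →
      #{b | ∃ᶠ a in f, b ∈ L a} ≤ κ (m + 1))
    (cov : ∀ Q : Set S.N, #Q ≤ κ (S.k - 1) → ∃ a0, Q ∩ {b | S.lev b = S.k} ⊆ S.mem a0)
    {Ω : Type} [MeasurableSpace Ω] [DiscreteMeasurableSpace Ω] (μ : Measure Ω)
    [IsProbabilityMeasure μ] (z : Ω → S.N → ℕ → Bool)
    (coin1 : ∀ (b : S.N) (v : W), μ {ω | pre (z ω b) v.length = v} = (1 / 2) ^ v.length)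
    (coin2 : ∀ (b b' : S.N) (v v' : W), b ≠ b' →
      μ {ω | pre (z ω b) v.length = v ∧ pre (z ω b') v'.length = v'} =
        (1 / 2) ^ v.length * (1 / 2) ^ v'.length)
    (add : Add μ S.N) (hA : #S.A ≤ #S.N) :
    ∃ ω, Function.Injective (z ω) ∧ ¬ ∃ σ, IsTactic (ℕ → W) (S.top (z ω)) S.k σ := by
  classical
  by_contra hcon
  push Not at hcon
  choose! σ hσ using hcon
  -- the reply in terms of basic sets
  have hrep : ∀ (ω : Ω) (w : List (T × S.A)), ∃ p : T × S.A,
      (∃ p : T × S.A, S.U (z ω) p.1 p.2 ⊆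
        σ ω ((w.map (fun p => S.U (z ω) p.1 p.2)).reverse)) →
      S.U (z ω) p.1 p.2 ⊆ σ ω ((w.map (fun p => S.U (z ω) p.1 p.2)).reverse) := by
    intro ω w
    by_cases h : ∃ p : T × S.A, S.U (z ω) p.1 p.2 ⊆
        σ ω ((w.map (fun p => S.U (z ω) p.1 p.2)).reverse)
    · exact ⟨h.choose, fun _ => h.choose_spec⟩
    · exact ⟨([], S.ne.some), fun h' => absurd h' h⟩
  choose rep hrep using hrep
  -- numbering of the histories, the errors
  let code : List T → ℕ := fun h => Encodable.encode h
  let η : List T → ℝ := fun h => (1 / 2) ^ (code h + 1)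
  have hηsum : Summable η := by
    have h1 : Summable (fun n : ℕ => (1 / 2 : ℝ) ^ (n + 1)) := by
      have := (summable_nat_add_iff 1 (f := fun n : ℕ => (1 / 2 : ℝ) ^ n)).2
        summable_geometric_two
      exact this
    exact h1.comp_injective Encodable.encode_injective
  let Nn : List T → ℕ := fun h => code h + 3 + h.length
  let sh : List T → T := fun h => dummy (h.headD []) (Nn h)
  have hshlen : ∀ h, Nn h ≤ (sh h).length := fun h => dummy_length _ _
  have hNη : ∀ h, 2 * (1 / 2 : ℝ) ^ (sh h).length < η h := by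
    intro h
    have h1 : (1 / 2 : ℝ) ^ (sh h).length ≤ (1 / 2) ^ (code h + 3) := by
      apply pow_le_pow_of_le_one (by norm_num) (by norm_num)
      have := hshlen h
      simp only [Nn] at this
      omega
    have h2 : (0 : ℝ) < (1 / 2) ^ (code h + 1) := by positivity
    have h3 : (1 / 2 : ℝ) ^ (code h + 3) = (1 / 2) ^ (code h + 1) * (1 / 4) := by
      rw [show code h + 3 = (code h + 1) + 2 by ring, pow_add]; norm_num
    simp only [η]
    nlinarith
  -- guess sets
  let E : List T → List S.A → S.N → Set Ω := fun h as b =>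
    {ω | HitP (z ω b) (rep ω (zipw sh h as)).1 (sh h).length}
  let F : List T → List S.A → Set S.N := fun h as => {b | η h ≤ (μ (E h as b)).toReal}
  have hF : ∀ h as, (F h as).Finite := fun h as =>
    guess_finite μ z coin1 coin2 (fun ω => (rep ω (zipw sh h as)).1) (sh h).length (η h) (hNη h)
  -- lower bounds
  have hatom : ∀ (h : List T) (as : List S.A), ∃ C : Set S.A, C.Countable ∧
      μ {ω | (rep ω (zipw sh h as)).2 ∉ C} = 0 := fun h as =>
    atoms μ (add.of_card hA) (fun ω => (rep ω (zipw sh h as)).2)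
  choose C hCc hC0 using hatom
  choose lo hlo using fun h as => exists_ub f cone (C h as) (hCc h as)
  obtain ⟨av, hav⟩ := core (τT := T) S.k S.hk (fun a a' => S.mem a ⊆ S.mem a') f cone κ hκ hup
    S.mem {b | S.lev b = S.k} cov F hF lo
  -- bad sets
  let B1 : Set Ω := {ω | ¬ Function.Injective (z ω)}
  have hB1 : μ B1 = 0 := ae_inj μ add z coin2
  let B2 : Set Ω := ⋃ h : List T, {ω | (rep ω (zipw sh h (asOf S.k av h))).2 ∉
    C h (asOf S.k av h)}
  have hB2 : μ B2 = 0 := measure_iUnion_null (fun h => hC0 _ _)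
  let E3 : S.N → List T → Set Ω := fun b h =>
    if b ∈ F h (asOf S.k av h) then ∅ else E h (asOf S.k av h) b
  let B3 : Set Ω := ⋃ b : S.N, {ω | ¬ {h | ω ∈ E3 b h}.Finite}
  have hB3 : μ B3 = 0 := by
    apply add
    intro b
    apply borel_cantelli μ (E3 b) η hηsum
    intro h
    by_cases hb : b ∈ F h (asOf S.k av h)
    · simp only [E3, hb, if_true, measure_empty, ENNReal.toReal_zero]
      positivity
    · simp only [E3, hb, if_false]
      have : ¬ η h ≤ (μ (E h (asOf S.k av h) b)).toReal := hb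
      linarith
  have hne : ∃ ω, ω ∉ B1 ∪ (B2 ∪ B3) := by
    by_contra hall
    push Not at hall
    have h1 : μ (B1 ∪ (B2 ∪ B3)) = 0 := by
      rw [measure_union_null_iff, measure_union_null_iff]
      exact ⟨hB1, hB2, hB3⟩
    rw [Set.eq_univ_of_forall hall, measure_univ] at h1
    exact one_ne_zero h1
  obtain ⟨ω, hω⟩ := hne
  simp only [Set.mem_union, not_or] at hω
  obtain ⟨hω1, hω2, hω3⟩ := hω
  have hinj : Function.Injective (z ω) := by
    by_contra h; exact hω1 h
  have hσω := hσ ω hinj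
  have hω2' : ∀ h, (rep ω (zipw sh h (asOf S.k av h))).2 ∈ C h (asOf S.k av h) := by
    intro h
    by_contra hh
    exact hω2 (Set.mem_iUnion.2 ⟨h, hh⟩)
  have hω3' : ∀ b, {h | ω ∈ E3 b h}.Finite := by
    intro b
    by_contra hh
    exact hω3 (Set.mem_iUnion.2 ⟨b, hh⟩)
  -- the play
  let next : List T → T := fun h => (rep ω (zipw sh h (asOf S.k av h))).1
  let s : ℕ → T := fun i => next (play next i)
  have hsucc : ∀ n, hist s (n + 1) = next (hist s n) :: hist s n := by
    intro n
    simp only [s, play_hist]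
    rfl
  let U : ℕ → Set (ℕ → W) := fun n => S.U (z ω) (sh (hist s n)) (av (hist s n))
  have hwin : ∀ n, ((zipw sh (hist s n) (asOf S.k av (hist s n))).map
      (fun p => S.U (z ω) p.1 p.2)).reverse = win S.k U n := by
    intro n
    rw [win_eq, zipw_hist, nwin_map]
  have hUopen : ∀ n, @IsOpen _ (S.top (z ω)) (U n) ∧ (U n).Nonempty := fun n =>
    ⟨S.U_open _ _ _, S.U_nonempty _ hinj _ _⟩
  have hlegal : ∀ n, U (n + 1) ⊆ σ ω (win S.k U n) := by
    intro n
    induction n using Nat.strong_induction_on with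
    | _ n ih =>
      have h1 := hσω.1 U n (hUopen 0).1 (hUopen 0).2
        (fun m hm => ⟨(hUopen (m + 1)).1, (hUopen (m + 1)).2, ih m hm⟩)
      obtain ⟨s0, a0, hsa⟩ := S.exists_U_sub (z ω) h1.1 h1.2.1
      have h2 := hrep ω (zipw sh (hist s n) (asOf S.k av (hist s n)))
      rw [hwin n] at h2
      have h3 := h2 ⟨(s0, a0), hsa⟩
      refine Set.Subset.trans ?_ h3
      apply S.U_mono
      · rw [hsucc n]
        exact dummy_prefix _ _
      · refine (hlo _ _ _ (hω2' (hist s n))).trans ?_
        have h4 := (hav s).1 n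
        rw [← asOf_hist] at h4
        exact h4
  obtain ⟨r, hr⟩ := hσω.2 U (hUopen 0).1 (hUopen 0).2
    (fun m => ⟨(hUopen (m + 1)).1, (hUopen (m + 1)).2, hlegal m⟩)
  have hrU : ∀ n, r ∈ U n := by
    intro n
    have h1 := hσω.1 U n (hUopen 0).1 (hUopen 0).2
      (fun m _ => ⟨(hUopen (m + 1)).1, (hUopen (m + 1)).2, hlegal m⟩)
    exact h1.2.2 (Set.mem_iInter.1 hr n)
  obtain ⟨b, hbk, hb0, hcap⟩ := (hrU 0).2 S.k S.hk le_rfl
  have hext : ∀ n, Ext (sh (hist s n)) r := fun n => (hrU n).1
  -- finitely many hits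
  have hfin1 : {n | b ∈ F (hist s n) (asOf S.k av (hist s n))}.Finite := by
    have := (hav s).2 b hbk hb0
    simp only [← asOf_hist] at this
    exact this
  have hfin2 : {n | ω ∈ E3 b (hist s n)}.Finite :=
    (hω3' b).preimage ((hist_inj s).injOn)
  have hfin3 : {n | ω ∈ E (hist s n) (asOf S.k av (hist s n)) b}.Finite := by
    apply (hfin1.union hfin2).subset
    intro n hn
    by_cases h : b ∈ F (hist s n) (asOf S.k av (hist s n))
    · exact Or.inl h
    · right
      show ω ∈ E3 b (hist s n)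
      simp only [E3, h, if_false]
      exact hn
  obtain ⟨n0, hn0⟩ := hfin3.bddAbove
  have hlen : ∀ n, n ≤ (sh (hist s n)).length := by
    intro n
    have h1 := hshlen (hist s n)
    have h2 : (hist s n).length = n := by
      clear * -
      induction n with
      | zero => rfl
      | succ n ih => simp [hist, ih]
    simp only [Nn] at h1
    omega
  apply hcap
  apply (Set.finite_lt_nat (sh (hist s (n0 + 1))).length).subset
  intro p hp
  by_contra hlt
  change ¬ (p < (sh (hist s (n0 + 1))).length) at hlt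
  rw [not_lt] at hlt
  -- find the round
  have hex : ∃ n, n0 + 1 ≤ n ∧ p < (sh (hist s (n + 1))).length := ⟨p + n0 + 1, by omega, by
    have := hlen (p + n0 + 1 + 1)
    omega⟩
  obtain ⟨hn1, hn⟩ := Nat.find_spec hex
  have hle : (sh (hist s (Nat.find hex))).length ≤ p := by
    by_contra hlt'
    push Not at hlt'
    have h1 : Nat.find hex ≠ n0 + 1 := by
      intro h
      rw [h] at hlt'
      omega
    obtain ⟨n', hn'⟩ : ∃ n', Nat.find hex = n' + 1 := ⟨Nat.find hex - 1, by omega⟩
    have h2 := Nat.find_min hex (m := n') (by omega)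
    apply h2
    refine ⟨by omega, ?_⟩
    rw [← hn']
    exact hlt'
  generalize Nat.find hex = n at hn1 hn hle
  have hrp : (sh (hist s (n + 1))).getD p [] = pre (z ω b) p := by
    rw [hext (n + 1) p hn]
    exact hp
  have hshe : sh (hist s (n + 1)) = dummy (next (hist s n)) (Nn (hist s (n + 1))) := by
    simp only [sh]
    rw [hsucc n]
    rfl
  rw [hshe] at hrp hn
  by_cases hpt : p < (next (hist s n)).length
  · have h1 : (next (hist s n)).getD p [] = pre (z ω b) p := by
      rw [← hrp]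
      simp only [dummy]
      rw [List.getD_append _ _ _ _ hpt]
    have h2 : n ∈ {n | ω ∈ E (hist s n) (asOf S.k av (hist s n)) b} := ⟨p, hle, hpt, h1⟩
    have := hn0 h2
    omega
  · exact dummy_ne _ _ p (not_lt.1 hpt) hn _ hrp

end Pool.Agent.H72.TG
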