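import Pool.Agent.H72.TG.PipeC
import Pool.Agent.H72.TG.Space

/-!
# The pipeline gives a winning `(k+1)`-tactic
-/

set_option autoImplicit false

namespace Pool.Agent.H72.TG

theorem nwin_cons {α : Type} (k : ℕ) (U : ℕ → α) (n : ℕ) :
    ∃ rest, nwin (k + 1) U n = U n :: rest := by
  rcases n with _ | n
  · exact ⟨[], nwin_zero (k + 1) (by omega) U⟩
  · exact ⟨_, nwin_succ (k + 1) (by omega) U n⟩

theorem exists_tactic {S : Sys} (C : Code S) (x : S.N → ℕ → Bool) (hx : Function.Injective x) :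
    ∃ σ, IsTactic (ℕ → W) (S.top x) (S.k + 1) σ := by
  classical
  obtain ⟨R, hR⟩ := C.exists_reply x
  have hpick : ∀ O : Set (ℕ → W), ∃ p : T × S.A,
      @IsOpen _ (S.top x) O → O.Nonempty → S.U x p.1 p.2 ⊆ O := by
    intro O
    by_cases h : @IsOpen _ (S.top x) O ∧ O.Nonempty
    · obtain ⟨s, a, hsa⟩ := S.exists_U_sub x h.1 h.2
      exact ⟨(s, a), fun _ _ => hsa⟩
    · exact ⟨([], S.ne.some), fun h1 h2 => absurd ⟨h1, h2⟩ h⟩
  choose pick hpick using hpick
  let σ : List (Set (ℕ → W)) → Set (ℕ → W) := fun L =>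
    S.U x (R ((L.reverse).map pick)).1 (R ((L.reverse).map pick)).2
  have hσ : ∀ (U : ℕ → Set (ℕ → W)) (n : ℕ), σ (win (S.k + 1) U n) =
      S.U x (R (nwin (S.k + 1) (fun i => pick (U i)) n)).1
        (R (nwin (S.k + 1) (fun i => pick (U i)) n)).2 := by
    intro U n
    simp only [σ]
    rw [win_eq, List.reverse_reverse, nwin_map]
  refine ⟨σ, ?_, ?_⟩
  · intro U n h0 h0' hm
    have hopen : @IsOpen _ (S.top x) (U n) ∧ (U n).Nonempty := by
      rcases n with _ | n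
      · exact ⟨h0, h0'⟩
      · exact ⟨(hm n (Nat.lt_succ_self n)).1, (hm n (Nat.lt_succ_self n)).2.1⟩
    rw [hσ]
    refine ⟨S.U_open x _ _, S.U_nonempty x hx _ _, ?_⟩
    obtain ⟨rest, hrest⟩ := nwin_cons S.k (fun i => pick (U i)) n
    rw [hrest]
    exact (S.U_mono x (hR.pref _ _) (hR.mem _ _)).trans (hpick (U n) hopen.1 hopen.2)
  · intro U h0 h0' hm
    have hopen : ∀ n, @IsOpen _ (S.top x) (U n) ∧ (U n).Nonempty := by
      intro n
      rcases n with _ | n
      · exact ⟨h0, h0'⟩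
      · exact ⟨(hm n).1, (hm n).2.1⟩
    have hP : ∀ n, (R (nwin (S.k + 1) (fun i => pick (U i)) n)).1 <+: (pick (U (n + 1))).1 ∧
        S.mem (R (nwin (S.k + 1) (fun i => pick (U i)) n)).2 ⊆ S.mem (pick (U (n + 1))).2 := by
      intro n
      have h1 : S.U x (pick (U (n + 1))).1 (pick (U (n + 1))).2 ⊆ U (n + 1) :=
        hpick _ (hopen (n + 1)).1 (hopen (n + 1)).2
      have h2 : U (n + 1) ⊆ σ (win (S.k + 1) U n) := (hm n).2.2
      rw [hσ] at h2
      exact S.U_incl x hx (h1.trans h2)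
    obtain ⟨r, hr⟩ := exists_lim (fun n => (pick (U n)).1)
      (pipe_prefix C x R hR (fun i => pick (U i)) hP)
      (pipe_len C x R hR (fun i => pick (U i)) hP)
    refine ⟨r, ?_⟩
    simp only [Set.mem_iInter]
    intro n
    apply (hm n).2.2
    apply hpick _ (hopen (n + 1)).1 (hopen (n + 1)).2
    refine ⟨hr (n + 1), ?_⟩
    intro i h1 hi
    refine ⟨S.fr (pick (U (n + 1))).2 i, (S.fr_spec _ i h1 hi).1, (S.fr_spec _ i h1 hi).2, ?_⟩
    exact captured C x R hR (fun i => pick (U i)) hP r hr (n + 1) i h1 hi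

end Pool.Agent.H72.TG
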