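import Pool.Agent.H72.TG.Inst
import Pool.Agent.H72.TG.PipeD
import Pool.Agent.H72.TG.NoTac

/-!
# Hypothesis (H) implies Telgarsky's conjecture for all k
-/

set_option autoImplicit false

open Cardinal Filter

namespace Pool.Agent.H72.TG

theorem HypH.main (H : HypH) (k : ℕ) (hk : 1 ≤ k) :
    ∃ (X : Type) (tX : TopologicalSpace X), @T2Space X tX ∧
      (∃ σ, IsTactic X tX (k + 1) σ) ∧ ¬ ∃ σ, IsTactic X tX k σ := by
  classical
  letI : MeasurableSpace (H.N → ℕ → Bool) := ⊤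
  have _ : DiscreteMeasurableSpace (H.N → ℕ → Bool) := ⟨fun _ => trivial⟩
  let μ : MeasureTheory.Measure (H.N → ℕ → Bool) := H.m
  have _ : MeasureTheory.IsProbabilityMeasure μ := ⟨H.m_univ⟩
  let f : Filter (H.sys k hk).A := FK H.ff k
  have _ : f.NeBot := FK_neBot H.ff H.ff_neBot k
  have _ : CountableInterFilter f := FK_count H.ff H.ff_count k
  have _ : Infinite (H.sys k hk).N := inferInstanceAs (Infinite H.N)
  have cone : ∀ a0, ∀ᶠ a in f, (H.sys k hk).mem a0 ⊆ (H.sys k hk).mem a :=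
    FK_cone H.memD H.ff H.ff_cone k
  have hup : ∀ m, m + 1 < (H.sys k hk).k → ∀ L : (H.sys k hk).A → Set (H.sys k hk).N,
      (∀ a, #(L a) ≤ H.kap m) → #{b | ∃ᶠ a in f, b ∈ L a} ≤ H.kap (m + 1) := by
    intro m hm L hL
    have hm' : m + 1 < k := hm
    exact FK_up H.ff H.kap (H.kap_inf 0) H.kap_mono.monotone H.D_card
      H.F_inter H.F_ccc k m (by omega) L hL
  obtain ⟨x, hx, hno⟩ := no_tactic (H.sys k hk) f cone H.kap (H.kap_inf 0) hup
    (H.hyp_cov k hk) μ (fun x => x) H.m_coin1 (fun b b' v v' hb => H.m_coin2 b b' v v' hb)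
    H.m_add (H.hyp_cardA k)
  obtain ⟨C⟩ := H.hyp_code k hk
  exact ⟨ℕ → W, (H.sys k hk).top x, (H.sys k hk).top_t2 x, exists_tactic C x hx, hno⟩

end Pool.Agent.H72.TG
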