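import Pool.Agent.H72.TG.PipeA

/-!
# TG-5: the pipeline, the reply (job)

The reply of the second player to a window `w = p :: rest` (newest first, `p = (s,a)`): `s` is
extended by the word `msgW (M w)` (message) and then, for every known name `b ∈ K w` (a finite
set, take a list), by the prefix of `x b` of the length of the current position; the set is
enlarged to contain `Cd w` (`S.fin`).

PROOF. `hitL x L n` is the list `pre (x b_0) n, pre (x b_1) (n+1), …`. For `b ∈ L` at index `j`
its entry `j` is `pre (x b) (n+j)` (`hitL_get`). Define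
`R (p :: rest) = (p.1 ++ msgW (M_finite.toFinset) :: hitL x L (p.1.length+1), a')` with `L` the list
of `K_finite.toFinset` and `a'` from `S.fin p.2 (C.Cd w) (C.Cd_finite w) (C.Cd_lev w)`
(`choose` over `w`, `p`), `R [] = default` (`S.ne`).

Status: complete (helper26).
-/

set_option autoImplicit false

namespace Pool.Agent.H72.TG

/-- hits for the names in the list, starting at position `n` -/
def hitL {N : Type} (x : N → ℕ → Bool) : List N → ℕ → T
  | [], _ => []
  | b :: L, n => pre (x b) n :: hitL x L (n + 1)

theorem hitL_get {N : Type} (x : N → ℕ → Bool) (L : List N) (n : ℕ) (b : N) (hb : b ∈ L) :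
    ∃ j, j < (hitL x L n).length ∧ (hitL x L n).getD j [] = pre (x b) (n + j) := by
  induction L generalizing n with
  | nil => simp at hb
  | cons c L ih =>
    rcases List.mem_cons.1 hb with rfl | hb
    · exact ⟨0, by simp [hitL], by simp [hitL]⟩
    · obtain ⟨j, hj, hj'⟩ := ih (n + 1) hb
      refine ⟨j + 1, by simpa [hitL] using hj, ?_⟩
      have h1 : (hitL x (c :: L) n).getD (j + 1) [] = (hitL x L (n + 1)).getD j [] := rfl
      rw [h1, hj']
      congr 1
      omega

/-- the properties of the reply function -/
structure Code.IsReply {S : Sys} (C : Code S) (x : S.N → ℕ → Bool)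
    (R : List (T × S.A) → T × S.A) : Prop where
  pref : ∀ p rest, p.1 <+: (R (p :: rest)).1
  len : ∀ p rest, p.1.length < (R (p :: rest)).1.length
  mem : ∀ p rest, S.mem p.2 ⊆ S.mem (R (p :: rest)).2
  cd : ∀ p rest, C.Cd (p :: rest) ⊆ S.mem (R (p :: rest)).2
  msg : ∀ p rest, ((wMsg ((R (p :: rest)).1.getD p.1.length []) : Finset ℕ) : Set ℕ) =
    C.M (p :: rest)
  hit : ∀ p rest, ∀ b ∈ C.K (p :: rest), ∃ i, p.1.length ≤ i ∧ i < (R (p :: rest)).1.length ∧
    (R (p :: rest)).1.getD i [] = pre (x b) i

theorem Code.exists_reply {S : Sys} (C : Code S) (x : S.N → ℕ → Bool) :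
    ∃ R : List (T × S.A) → T × S.A, C.IsReply x R := by
  classical
  have h : ∀ (w : List (T × S.A)) (p : T × S.A), ∃ a', S.mem p.2 ⊆ S.mem a' ∧
      C.Cd w ⊆ S.mem a' := fun w p => S.fin p.2 (C.Cd w) (C.Cd_finite w) (C.Cd_lev w)
  choose g hg1 hg2 using h
  let R : List (T × S.A) → T × S.A := fun w => match w with
    | [] => ([], Classical.choice S.ne)
    | p :: rest => (p.1 ++ (msgW (C.M_finite (p :: rest)).toFinset ::
        hitL x (C.K_finite (p :: rest)).toFinset.toList (p.1.length + 1)), g (p :: rest) p)
  have hR : ∀ p rest, (R (p :: rest)).1 = p.1 ++ (msgW (C.M_finite (p :: rest)).toFinset ::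
        hitL x (C.K_finite (p :: rest)).toFinset.toList (p.1.length + 1)) := fun p rest => rfl
  have hR2 : ∀ p rest, (R (p :: rest)).2 = g (p :: rest) p := fun p rest => rfl
  refine ⟨R, ⟨?_, ?_, ?_, ?_, ?_, ?_⟩⟩
  · intro p rest
    rw [hR]
    exact List.prefix_append _ _
  · intro p rest
    rw [hR, List.length_append, List.length_cons]
    omega
  · intro p rest
    rw [hR2]
    exact hg1 _ _
  · intro p rest
    rw [hR2]
    exact hg2 _ _
  · intro p rest
    rw [hR, List.getD_append_right _ _ _ _ le_rfl, Nat.sub_self]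
    change ((wMsg (msgW (C.M_finite (p :: rest)).toFinset) : Finset ℕ) : Set ℕ) = _
    rw [wMsg_msgW, Set.Finite.coe_toFinset]
  · intro p rest b hb
    obtain ⟨j, hj, hj'⟩ := hitL_get x (C.K_finite (p :: rest)).toFinset.toList
      (p.1.length + 1) b (by
        rw [Finset.mem_toList, Set.Finite.mem_toFinset]
        exact hb)
    refine ⟨p.1.length + (j + 1), by omega, ?_, ?_⟩
    · rw [hR, List.length_append, List.length_cons]
      omega
    · rw [hR, List.getD_append_right _ _ _ _ (by omega), Nat.add_sub_cancel_left]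
      change (hitL x (C.K_finite (p :: rest)).toFinset.toList (p.1.length + 1)).getD j [] = _
      rw [hj']
      congr 1
      omega

end Pool.Agent.H72.TG
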