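import Pool.Agent.H72.TG.PipeB
import Pool.Agent.H72.TG.Win

/-!
# TG-6: the pipeline, invariants (job)

`P n = (s_n, a_n)` is the `n`-th move of the first player, `w_n = nwin (k+1) P n` the window (newest
first, length `min (n+1) (k+1)`), `R` the reply function. Assumption `hP`: `R w_n` is refined by
`P (n+1)`.

* `known`: for all `n ≤ m` and `1 ≤ i ≤ k` the fresh name `b = fr a_n i` is in `K w_m`.
  PROOF by strong induction on `m`. If `m ≤ n + k` then `P n` is an entry of `w_m`, so `b ∈ Kf w_m`.
  Let `m > n + k`, so `m - 1 ≥ n + k ≥ n + i` and `w_m = P m :: P (m-1) :: …` (length `k+1`).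
  Claim: for `j ≤ i` and all `m'` with `n + j ≤ m' < m`:
  `valid ((w_{m'}.take j).map snd) b` (here `w_{m'}.take j = [P m', …, P (m'-j+1)]`, `nwin_take`).
  Induction on `j`; `j = 0` trivial. Step: the list `[a_{m'}, …, a_{m'-j}]` is `a_{m'}` followed by the
  list for `(j, m'-1)`, which is valid by induction; and `code` of the latter list of `b` is in
  `Cd w_{m'-1}` because `b ∈ K w_{m'-1}` (outer induction, `n ≤ m'-1 < m`), `j < i = lev b`,
  `j ≤ length w_{m'-1}`; so it is in `mem (R w_{m'-1}).2 ⊆ mem a_{m'}` (`cd`, `hP`).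
  Apply the claim with `j = i`, `m' = m-1`: `valid [a_{m-1},…,a_{m-i}] b`; as `b ∈ K w_{m-1}`, its code
  number is in `M w_{m-1}`, which is the message at position `s_{m-1}.length` of `(R w_{m-1}).1`, a
  prefix of `s_m`; so `b ∈ Kd w_m` (here `w_m = P m :: rest`, `rest.take i = w_{m-1}.take i`).
* `captured`: if `r` extends all `s_n` then it captures `fr a_n i`: for each `m ≥ n` there is a
  position `≥ s_m.length ≥ m` at which `r` is the prefix of `x b` (`hit`, `known`).
-/

set_option autoImplicit false

namespace Pool.Agent.H72.TG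

theorem PipeC_cons {α : Type} (k : ℕ) (U : ℕ → α) (n : ℕ) : ∃ rest, nwin (k + 1) U n = U n :: rest := by
  cases n with
  | zero => exact ⟨[], nwin_zero _ (by omega) _⟩
  | succ n => exact ⟨_, nwin_succ _ (by omega) _ _⟩

theorem PipeC_take {α : Type} (k : ℕ) (U : ℕ → α) (n j : ℕ) (hj : j ≤ k) :
    (nwin (k + 1) U (n + 1)).take (j + 1) = U (n + 1) :: (nwin (k + 1) U n).take j := by
  rw [nwin_succ _ (by omega), List.take_succ_cons, List.take_take]
  congr 2
  omega

variable {S : Sys} (C : Code S) (x : S.N → ℕ → Bool) (R : List (T × S.A) → T × S.A)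
  (hR : C.IsReply x R) (P : ℕ → T × S.A)
  (hP : ∀ n, (R (nwin (S.k + 1) P n)).1 <+: (P (n + 1)).1 ∧
    S.mem (R (nwin (S.k + 1) P n)).2 ⊆ S.mem (P (n + 1)).2)

include hR hP in
theorem known (n m i : ℕ) (hnm : n ≤ m) (h1 : 1 ≤ i) (hi : i ≤ S.k) :
    S.fr (P n).2 i ∈ C.K (nwin (S.k + 1) P m) := by
  obtain ⟨hlev, -⟩ := S.fr_spec (P n).2 i h1 hi
  induction m using Nat.strong_induction_on with
  | _ m ih =>
    by_cases hm : m ≤ n + S.k
    · left
      refine ⟨P n, ?_, i, h1, hi, rfl⟩
      unfold nwin
      rw [List.mem_map]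
      refine ⟨m - n, ?_, ?_⟩
      · rw [List.mem_range]
        omega
      · congr 1
        omega
    · have claim : ∀ j, j ≤ i → ∀ m', n + j ≤ m' → m' < m →
          C.valid (((nwin (S.k + 1) P m').take j).map Prod.snd) (S.fr (P n).2 i) := by
        intro j
        induction j with
        | zero => intro _ m' _ _; exact trivial
        | succ j ihj =>
          intro hj m' h2 h3
          obtain ⟨l, rfl⟩ : ∃ l, m' = l + 1 := ⟨m' - 1, by omega⟩
          rw [PipeC_take _ _ _ _ (by omega), List.map_cons]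
          have hv := ihj (by omega) l (by omega) (by omega)
          refine ⟨hv, (hP l).2 ?_⟩
          obtain ⟨rest, hrest⟩ := PipeC_cons S.k P l
          have hcd := hR.cd (P l) rest
          rw [← hrest] at hcd
          apply hcd
          refine ⟨_, ih l (by omega) (by omega), j, ?_, ?_, hv, rfl⟩
          · rw [hlev]; omega
          · rw [nwin_length]; omega
      obtain ⟨l, rfl⟩ : ∃ l, m = l + 1 := ⟨m - 1, by omega⟩
      have hv := claim i le_rfl l (by omega) (by omega)
      have hK := ih l (by omega) (by omega)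
      obtain ⟨rest, hrest⟩ := PipeC_cons S.k P l
      have hM : C.enc (C.code (((nwin (S.k + 1) P l).take i).map Prod.snd) (S.fr (P n).2 i)) ∈
          C.M (nwin (S.k + 1) P l) := by
        refine ⟨_, hK, ?_, ?_, ?_⟩
        · rw [hlev, nwin_length]; omega
        · rw [hlev]; exact hv
        · rw [hlev]
      have hmsg := hR.msg (P l) rest
      have hlen := hR.len (P l) rest
      rw [← hrest] at hmsg hlen
      rw [← hmsg, Finset.mem_coe, words_getD_prefix (hP l).1 hlen] at hM
      right
      have hk := S.hk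
      have hq : (nwin (S.k + 1) P l).take S.k = P l :: rest.take (S.k - 1) := by
        rw [hrest]
        obtain ⟨k', hk'⟩ : ∃ k', S.k = k' + 1 := ⟨S.k - 1, by omega⟩
        rw [hk', List.take_succ_cons]
        rfl
      refine ⟨P (l + 1), P l, rest.take (S.k - 1), ?_, ?_, ?_, ?_, ?_, ?_⟩
      · rw [nwin_succ _ (by omega), ← hq]
        rfl
      · rw [hlev]; exact h1
      · rw [hlev]; exact hi
      · rw [hlev, ← hq, List.length_take, nwin_length]
        omega
      · rw [hlev, ← hq, List.take_take, min_eq_left hi]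
        exact hv
      · rw [hlev, ← hq, List.take_take, min_eq_left hi]
        exact hM

include hR hP in
theorem pipe_prefix (n : ℕ) : (P n).1 <+: (P (n + 1)).1 := by
  obtain ⟨rest, hrest⟩ := PipeC_cons S.k P n
  have h1 := hR.pref (P n) rest
  rw [← hrest] at h1
  exact h1.trans (hP n).1

include hR hP in
theorem pipe_len (n : ℕ) : n ≤ (P n).1.length := by
  induction n with
  | zero => exact Nat.zero_le _
  | succ n ih =>
    obtain ⟨rest, hrest⟩ := PipeC_cons S.k P n
    have h1 := hR.len (P n) rest
    rw [← hrest] at h1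
    have h2 := (hP n).1.length_le
    omega

include hR hP in
theorem captured (r : ℕ → W) (hr : ∀ n, Ext (P n).1 r) (n i : ℕ) (h1 : 1 ≤ i) (hi : i ≤ S.k) :
    Cap (x (S.fr (P n).2 i)) r := by
  refine Set.infinite_of_forall_exists_gt fun a => ?_
  have hK := known C x R hR P hP n (max n (a + 1)) i (le_max_left _ _) h1 hi
  obtain ⟨rest, hrest⟩ := PipeC_cons S.k P (max n (a + 1))
  have hhit := hR.hit (P (max n (a + 1))) rest
  rw [← hrest] at hhit
  obtain ⟨p, hp1, hp2, hp3⟩ := hhit _ hK
  have hl := pipe_len C x R hR P hP (max n (a + 1))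
  have ha : a + 1 ≤ max n (a + 1) := le_max_right _ _
  refine ⟨p, ?_, by omega⟩
  have hpre := (hP (max n (a + 1))).1
  have h2 := hr (max n (a + 1) + 1) p (hp2.trans_le hpre.length_le)
  rw [← words_getD_prefix hpre hp2, hp3] at h2
  exact h2.symm

end Pool.Agent.H72.TG
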