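import Pool.Agent.H72.TG.Defs

/-!
# TG-9: the Ulam type lemma (complete, helper69)

`f` is a filter on `D`, closed under intersections of at most `κ` sets (`κ` infinite), such that
every disjoint family of positive sets is countable. If `L y` has at most `κ` elements for all `y`
then at most `κ` many `b` are in `L y` for positively many `y`.

PROOF. Let `I` be a type with `#I = κ` (`κ.out`). For every `y` choose `e y : I → Option N` with
`L y ⊆ {b | ∃ ξ, e y ξ = some b}` (as `#(L y) ≤ #I` there is an injection `L y → I`; invert it).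
For `b` in the set in question `{y | b ∈ L y} ⊆ ⋃ ξ, {y | e y ξ = some b}`; if none of the sets
`{y | e y ξ = some b}` were positive, their complements and hence (at most `κ` of them) the
intersection of the complements would be in `f`, so `{y | b ∈ L y}` would not be positive.
So there is `ξ` with `{y | e y ξ = some b}` positive. For fixed `ξ` the sets
`{y | e y ξ = some b}` (`b : N`) are pairwise disjoint, so only countably many `b` are such that it
is positive (the positive ones are nonempty, hence different for different `b`; apply `ccc` to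
the family of these sets and pull back by the injective map `b ↦ {y | e y ξ = some b}`). Hence the
set in question is contained in a union over `ξ : I` of countable sets:
`#… ≤ #I * ℵ₀ = κ` (`Cardinal.mk_iUnion_le`, `Cardinal.mul_eq_left`).
-/

set_option autoImplicit false

open Filter Cardinal

namespace Pool.Agent.H72.TG

theorem ulam {D N : Type} (f : Filter D) (κ : Cardinal.{0}) (hκ : ℵ₀ ≤ κ)
    (hc : ∀ S : Set (Set D), #S ≤ κ → (∀ s ∈ S, s ∈ f) → ⋂₀ S ∈ f)
    (ccc : ∀ S : Set (Set D), S.PairwiseDisjoint id → (∀ s ∈ S, ∃ᶠ y in f, y ∈ s) → S.Countable)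
    (L : D → Set N) (hL : ∀ y, #(L y) ≤ κ) :
    #{b | ∃ᶠ y in f, b ∈ L y} ≤ κ := by
  have hI : #(κ.out) = κ := Cardinal.mk_out κ
  have hg : ∀ y, Nonempty (L y ↪ κ.out) := by
    intro y
    rw [← Cardinal.le_def, hI]
    exact hL y
  let g := fun y => (hg y).some
  let E : κ.out → N → Set D := fun ξ b => {y | ∃ h : b ∈ L y, g y ⟨b, h⟩ = ξ}
  have hE : ∀ ξ b b' y, y ∈ E ξ b → y ∈ E ξ b' → b = b' := by
    rintro ξ b b' y ⟨h1, h2⟩ ⟨h3, h4⟩
    have := (g y).injective (h2.trans h4.symm)
    exact congrArg Subtype.val this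
  have h1 : ∀ b, (∃ᶠ y in f, b ∈ L y) → ∃ ξ, ∃ᶠ y in f, y ∈ E ξ b := by
    intro b hb
    by_contra hne
    push Not at hne
    have h2 : ⋂₀ (Set.range fun ξ => (E ξ b)ᶜ) ∈ f := by
      refine hc _ (Cardinal.mk_range_le.trans hI.le) ?_
      rintro _ ⟨ξ, rfl⟩
      exact hne ξ
    refine hb (Filter.mem_of_superset h2 ?_)
    intro y hy hby
    exact Set.mem_sInter.1 hy _ ⟨g y ⟨b, hby⟩, rfl⟩ ⟨hby, rfl⟩
  have h2 : ∀ ξ, {b | ∃ᶠ y in f, y ∈ E ξ b}.Countable := by
    intro ξ
    refine Set.countable_of_injective_of_countable_image (f := E ξ) ?_ (ccc _ ?_ ?_)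
    · intro b hb b' hb' h
      obtain ⟨y, hy⟩ := Filter.Frequently.exists hb
      exact hE ξ b b' y hy (h ▸ hy)
    · rintro _ ⟨b, hb, rfl⟩ _ ⟨b', hb', rfl⟩ hne
      refine Set.disjoint_left.2 fun y hy hy' => hne ?_
      rw [hE ξ b b' y hy hy']
    · rintro _ ⟨b, hb, rfl⟩
      exact hb
  calc #{b | ∃ᶠ y in f, b ∈ L y} ≤ #(⋃ ξ : κ.out, {b | ∃ᶠ y in f, y ∈ E ξ b} : Set N) := by
        refine Cardinal.mk_le_mk_of_subset fun b hb => ?_
        obtain ⟨ξ, hξ⟩ := h1 b hb
        exact Set.mem_iUnion.2 ⟨ξ, hξ⟩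
    _ ≤ #(κ.out) * ⨆ ξ : κ.out, #{b | ∃ᶠ y in f, y ∈ E ξ b} := Cardinal.mk_iUnion_le _
    _ ≤ κ * ℵ₀ := by
        rw [hI]
        gcongr
        exact ciSup_le' fun ξ => Cardinal.le_aleph0_iff_set_countable.2 (h2 ξ)
    _ = κ := Cardinal.mul_aleph0_eq hκ

end Pool.Agent.H72.TG
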