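import Pool.Agent.H72.TG.Defs

/-!
# TG-1: words, extensions, capturing (complete, helper69)

All statements are elementary facts on `pre`, `Ext`, `Cap` (see `Defs.lean`).

* `pre_ne`: if `z m ≠ z' m` then for all `n > m` the prefixes differ (compare the entry `m`).
* `prefix_of_ext`: if `s` and `t` are both initial segments of `r` and `s` is not longer than `t`
  then `s` is a prefix of `t` (`List.ext_getElem?`, or `List.prefix_iff_eq_take` and
  `List.ext_getElem`).
* `exists_capt`: given `s`, a word `w` and finitely many names `b 0, …, b (m-1)` (`0 < m`) there is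
  `r` extending `s` with `r s.length = w` that captures exactly the names `b j`.
  PROOF. Put `r n = s.getD n []` for `n < s.length`, `r s.length = w`, and
  `r n = pre (x (b (n % m))) n` for `n > s.length`.
  Each `b j` is captured: the infinitely many `n = j + m * q` with `n > s.length` satisfy
  `n % m = j`. Conversely let `b'` be different from all `b j`. As `x` is injective,
  `x b' ≠ x (b j)`, so by `pre_ne` there is `n_j` with `pre (x b') n ≠ pre (x (b j)) n` for all
  `n > n_j`; beyond the maximum of `s.length` and the `n_j` we have `r n ≠ pre (x b') n`, so the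
  set of `n` with `r n = pre (x b') n` is finite.
-/

set_option autoImplicit false

namespace Pool.Agent.H72.TG

theorem pre_length (z : ℕ → Bool) (n : ℕ) : (pre z n).length = n := by
  simp [pre]

theorem pre_ne {z z' : ℕ → Bool} {m : ℕ} (h : z m ≠ z' m) {n : ℕ} (hn : m < n) :
    pre z n ≠ pre z' n := by
  intro e
  have h1 := congrArg (fun l : W => l[m]?) e
  simp only [pre, List.getElem?_map, List.getElem?_range hn, Option.map_some, Option.some.injEq] at h1
  exact h h1

theorem words_getD_prefix {s t : T} (h : s <+: t) {i : ℕ} (hi : i < s.length) :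
    s.getD i [] = t.getD i [] := by
  obtain ⟨u, rfl⟩ := h
  rw [List.getD_append _ _ _ _ hi]

theorem ext_of_prefix {s t : T} {r : ℕ → W} (h : s <+: t) (hr : Ext t r) : Ext s r := by
  intro i hi
  rw [words_getD_prefix h hi]
  exact hr i (hi.trans_le h.length_le)

theorem prefix_of_ext {s t : T} {r : ℕ → W} (hs : Ext s r) (ht : Ext t r)
    (hl : s.length ≤ t.length) : s <+: t := by
  rw [List.prefix_iff_eq_take]
  refine List.ext_getElem (by rw [List.length_take]; omega) ?_
  intro i h1 h2
  have h3 := hs i h1
  have h4 := ht i (h1.trans_le hl)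
  rw [List.getD_eq_getElem _ _ h1] at h3
  rw [List.getD_eq_getElem _ _ (h1.trans_le hl)] at h4
  rw [List.getElem_take, h3, h4]

theorem exists_ext (s : T) (f : ℕ → W) : ∃ r, Ext s r ∧ ∀ n, s.length ≤ n → r n = f n := by
  refine ⟨fun n => if n < s.length then s.getD n [] else f n, ?_, ?_⟩
  · intro i hi
    show s.getD i [] = if i < s.length then s.getD i [] else f i
    rw [if_pos hi]
  · intro n hn
    show (if n < s.length then s.getD n [] else f n) = f n
    rw [if_neg (by omega)]

/-- an increasing sequence of finite sequences whose lengths are unbounded has a limit -/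
theorem exists_lim (s : ℕ → T) (h : ∀ n, s n <+: s (n + 1)) (hl : ∀ n, n ≤ (s n).length) :
    ∃ r, ∀ n, Ext (s n) r := by
  have hm : ∀ m n, m ≤ n → s m <+: s n := by
    intro m n hmn
    induction n, hmn using Nat.le_induction with
    | base => exact List.prefix_rfl
    | succ n _ ih => exact ih.trans (h n)
  refine ⟨fun n => (s (n + 1)).getD n [], fun n i hi => ?_⟩
  show (s n).getD i [] = (s (i + 1)).getD i []
  rcases le_total n (i + 1) with h1 | h1
  · exact words_getD_prefix (hm _ _ h1) hi
  · exact (words_getD_prefix (hm _ _ h1) (lt_of_lt_of_le (Nat.lt_succ_self i) (hl (i + 1)))).symm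

theorem exists_capt {N : Type} (x : N → ℕ → Bool) (hx : Function.Injective x) (s : T) (w : W)
    (m : ℕ) (hm : 0 < m) (b : ℕ → N) :
    ∃ r, Ext s r ∧ r s.length = w ∧ ∀ b', Cap (x b') r ↔ ∃ j, j < m ∧ b j = b' := by
  obtain ⟨r, hr, hf⟩ := exists_ext s (fun n => if n = s.length then w else pre (x (b (n % m))) n)
  have hlast : r s.length = w := by rw [hf _ le_rfl, if_pos rfl]
  have hf' : ∀ n, s.length < n → r n = pre (x (b (n % m))) n := by
    intro n hn
    rw [hf n hn.le, if_neg hn.ne']
  refine ⟨r, hr, hlast, fun b' => ⟨fun hc => ?_, ?_⟩⟩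
  · by_contra hne
    push Not at hne
    have h1 : ∀ j, ∃ p, j < m → x (b j) p ≠ x b' p := by
      intro j
      by_cases hj : j < m
      · obtain ⟨p, hp⟩ := Function.ne_iff.1 (hx.ne (hne j hj))
        exact ⟨p, fun _ => hp⟩
      · exact ⟨0, fun h => absurd h hj⟩
    choose p hp using h1
    refine hc ((Set.finite_Iic (s.length + (Finset.range m).sup p)).subset ?_)
    intro n hn
    rw [Set.mem_Iic]
    by_contra hlt
    push Not at hlt
    have hjm : n % m < m := Nat.mod_lt _ hm
    have h2 : p (n % m) ≤ (Finset.range m).sup p := Finset.le_sup (Finset.mem_range.2 hjm)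
    have hn' : r n = pre (x b') n := hn
    rw [hf' n (by omega)] at hn'
    exact pre_ne (hp _ hjm) (by omega) hn'
  · rintro ⟨j, hj, rfl⟩
    refine Set.infinite_of_injective_forall_mem (f := fun q : ℕ => j + m * (q + s.length + 1)) ?_ ?_
    · intro q q' h
      have h' : j + m * (q + s.length + 1) = j + m * (q' + s.length + 1) := h
      have h2 : m * (q + s.length + 1) = m * (q' + s.length + 1) := by omega
      have h3 := Nat.eq_of_mul_eq_mul_left hm h2
      omega
    · intro q
      show r (j + m * (q + s.length + 1)) = pre (x (b j)) (j + m * (q + s.length + 1))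
      have h1 : q + s.length + 1 ≤ m * (q + s.length + 1) := Nat.le_mul_of_pos_left _ hm
      have h2 : (j + m * (q + s.length + 1)) % m = j := by
        rw [Nat.add_mul_mod_self_left, Nat.mod_eq_of_lt hj]
      rw [hf' _ (by omega), h2]

end Pool.Agent.H72.TG
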